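import Pool.Agent.K4H70.L2.Mod

/-!
The Betti numbers of an asymptotically acyclic sequence of systems are small.
-/

set_option autoImplicit false
set_option linter.unusedSectionVars false

open scoped Classical Topology
open Filter

namespace Pool.Agent.K4H70.L2

open Pool.Agent.Q134.SV
open Pool.Agent.K4H70.SV hiding To ext ext_zero ext_cons ext_sub ext_zero_of ext_const_zero ext_comm
  ext_neg ext_inl hat hat_gt hat_not bch vexact Zst zig_step zig_down st st_perm zig_start zig_end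
  exact_pos exact_zero

variable {V : Type} [Fintype V] {G : SimpleGraph V} {X N : ℕ → Type}
  [∀ j, AddCommGroup (X j)] [∀ j, Module ℝ (X j)] [∀ j, AddCommGroup (N j)] [∀ j, Module ℝ (N j)]
  [∀ j, FiniteDimensional ℝ (N j)] {d : ℕ → ℝ} (hd : ∀ j, 0 < d j)
  {r : ∀ j, V → N j →ₗ[ℝ] N j}

/-- evaluation -/
def ev' {M : Type} [AddCommGroup M] [Module ℝ M] {S : V → M →ₗ[ℝ] M} {k : ℕ} (s : Fin k → V) :
    EE G S k →ₗ[ℝ] M :=
  (LinearMap.proj s : ((Fin k → V) → M) →ₗ[ℝ] M) ∘ₗ (EE G S k).subtype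

lemma ev'_apply {M : Type} [AddCommGroup M] [Module ℝ M] {S : V → M →ₗ[ℝ] M} {k : ℕ}
    (s : Fin k → V) (α : EE G S k) : ev' s α = (α : (Fin k → V) → M) s := rfl

/-- the cochain of a sequence of maps -/
def al {k : ℕ} (φ : ∀ j, X j →ₗ[ℝ] EE G (r j) k) (s : Fin k → V) (j : ℕ) : X j →ₗ[ℝ] N j :=
  ev' s ∘ₗ φ j

lemma al_apply {k : ℕ} (φ : ∀ j, X j →ₗ[ℝ] EE G (r j) k) (s : Fin k → V) (j : ℕ) (x : X j) :
    al φ s j x = (φ j x : (Fin k → V) → N j) s := rfl

lemma sec_al {k : ℕ} (φ : ∀ j, X j →ₗ[ℝ] EE G (r j) k) : Sec G (Lf X r) (al φ) := by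
  refine ⟨fun s i j hij => ?_, fun s hs => ?_, fun s i => ?_⟩
  · funext l
    ext x
    exact (φ l x).2.alt s i j hij
  · obtain ⟨j, hj⟩ := Function.ne_iff.1 hs
    obtain ⟨x, hx⟩ : ∃ x, al φ s j x ≠ 0 := by
      by_contra hc
      push Not at hc
      exact hj (LinearMap.ext hc)
    exact (φ j x).2.supp s hx
  · funext l
    ext x
    exact (φ l x).2.neg s i

lemma mk_sec {k : ℕ} {α : (Fin k → V) → ∀ j, X j →ₗ[ℝ] N j} (hα : Sec G (Lf X r) α) :
    Sec G (SS X hd r) fun s => (II X N hd).mkQ (α s) := by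
  refine ⟨fun s i j hij => ?_, fun s hs => ?_, fun s i => ?_⟩
  · rw [hα.alt s i j hij, map_neg]
  · refine hα.supp s fun h0 => hs ?_
    rw [h0, map_zero]
  · rw [SS_mk, hα.neg, map_neg]

lemma Pr_mk (c : ℝ) (v : V) (a : ∀ j, X j →ₗ[ℝ] N j) :
    Pr (SS X hd r) c v ((II X N hd).mkQ a) = (II X N hd).mkQ (Pr (Lf X r) c v a) := by
  rw [Pr_apply, Pr_apply, map_smul, map_add, map_smul, SS_mk]

lemma tc_mk {k : ℕ} (α : (Fin k → V) → ∀ j, X j →ₗ[ℝ] N j) (s : Fin (k + 1) → V) :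
    tc (Pr (SS X hd r) (-1)) (fun s => (II X N hd).mkQ (α s)) s =
      (II X N hd).mkQ (tc (Pr (Lf X r) (-1)) α s) := by
  unfold tc
  rw [map_sum]
  refine Finset.sum_congr rfl fun i _ => ?_
  rw [Pr_mk, map_smul]

lemma tc_Lf {k : ℕ} (α : (Fin k → V) → ∀ j, X j →ₗ[ℝ] N j) (s : Fin (k + 1) → V) (j : ℕ)
    (x : X j) : tc (Pr (Lf X r) (-1)) α s j x = tc (Pr (r j) (-1)) (fun s => α s j x) s := by
  unfold tc
  rw [Finset.sum_apply, LinearMap.sum_apply]
  refine Finset.sum_congr rfl fun i _ => ?_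
  rw [Pr_apply, Pr_apply]
  simp only [Pi.smul_apply, Pi.add_apply, LinearMap.smul_apply, LinearMap.add_apply, Lf_apply,
    LinearMap.comp_apply]

lemma PF_mk (c : ℝ) (T : Finset V) (a : ∀ j, X j →ₗ[ℝ] N j) :
    PF (SS X hd r) c T ((II X N hd).mkQ a) = (II X N hd).mkQ (PF (Lf X r) c T a) := by
  rw [PF_apply, PF_apply]
  have : ∀ l : List V, PL (SS X hd r) c l ((II X N hd).mkQ a) =
      (II X N hd).mkQ (PL (Lf X r) c l a) := by
    intro l
    induction l with
    | nil => rfl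
    | cons v l ih => rw [PL_cons, PL_cons, ih, Pr_mk]
  exact this _

lemma lift_sec (hr : ∀ j, Com G (r j)) {k : ℕ} (γ : EE G (SS X hd r) k) :
    ∃ β : (Fin k → V) → ∀ j, X j →ₗ[ℝ] N j, Sec G (Lf X r) β ∧
      ∀ s, (II X N hd).mkQ (β s) = (γ : (Fin k → V) → _) s := by
  obtain ⟨σ, hσ⟩ := (II X N hd).mkQ.exists_rightInverse_of_surjective
    (LinearMap.range_eq_top.2 (II X N hd).mkQ_surjective)
  have hσ' : ∀ m, (II X N hd).mkQ (σ m) = m := fun m => LinearMap.congr_fun hσ m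
  have hL := com_Lf (X := X) r hr
  refine ⟨fun s => if CT G s then PF (Lf X r) (-1) (Finset.univ.image s)
    (σ ((γ : (Fin k → V) → _) s)) else 0, ⟨fun v i j hij => ?_, fun s hs => ?_, fun s i => ?_⟩,
    fun s => ?_⟩
  · by_cases h : CT G v
    · rw [if_pos ((ct_swap i j).2 h), if_pos h, image_swap, γ.2.alt v i j hij, map_neg, map_neg]
    · rw [if_neg fun h' => h ((ct_swap i j).1 h'), if_neg h, neg_zero]
  · by_contra h
    exact hs (if_neg h)
  · split_ifs with h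
    · rw [hL.S_PF (by norm_num) (cq_image h) (Finset.mem_image_of_mem s (Finset.mem_univ i)),
        neg_smul, one_smul]
    · simp
  · simp only
    split_ifs with h
    · rw [← PF_mk, hσ']
      refine PF_of (by norm_num) fun v hv => ?_
      obtain ⟨i, _, rfl⟩ := Finset.mem_image.1 hv
      rw [γ.2.neg, neg_smul, one_smul]
    · rw [map_zero]
      by_contra h0
      exact h (γ.2.supp s (Ne.symm h0))

/-- the sequence of maps of a cochain -/
def lo {k : ℕ} {β : (Fin k → V) → ∀ j, X j →ₗ[ℝ] N j} (hβ : Sec G (Lf X r) β) (j : ℕ) :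
    X j →ₗ[ℝ] EE G (r j) k where
  toFun x := ⟨fun s => β s j x, by
    refine ⟨fun s i l hil => ?_, fun s hs => ?_, fun s i => ?_⟩
    · have := hβ.alt s i l hil
      exact LinearMap.congr_fun (congrFun this j) x
    · refine hβ.supp s fun h0 => hs ?_
      rw [h0]
      rfl
    · have := hβ.neg s i
      exact LinearMap.congr_fun (congrFun this j) x⟩
  map_add' x y := by
    ext1
    funext s
    exact map_add _ _ _
  map_smul' c x := by
    ext1
    funext s
    exact map_smul _ _ _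

lemma lo_apply {k : ℕ} {β : (Fin k → V) → ∀ j, X j →ₗ[ℝ] N j} (hβ : Sec G (Lf X r) β) (j : ℕ)
    (x : X j) (s : Fin k → V) : (lo hβ j x : (Fin k → V) → N j) s = β s j x := rfl

include hd in
lemma rk_small {k : ℕ} (e : ∀ j, X j →ₗ[ℝ] EE G (r j) k)
    (he : ∀ s, Sm d fun j => rk (al e s j)) : Sm d fun j => rk (e j) := by
  refine Sm.mono hd (Sm.sum Finset.univ fun s _ => he s) fun j => ?_
  have h1 := rk_pi ((EE G (r j) k).subtype ∘ₗ e j)
  have h2 : rk ((EE G (r j) k).subtype ∘ₗ e j) = rk (e j) := by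
    unfold rk
    rw [LinearMap.range_comp]
    exact (Submodule.equivMapOfInjective _ (Submodule.subtype_injective _) _).finrank_eq.symm
  rw [h2] at h1
  exact h1

section

variable {n : ℕ} (hn : HSphere n G) {z : (Fin n → V) → ℝ}
    (hz : LCycle G ∅ z) (hz0 : z ≠ 0) {B : (Fin (n + 1) → V ⊕ V × V) → ℝ} (hB : Alt B)
    (hB' : ∀ v, B v ≠ 0 → GT G v) (hzB : ∀ y, ∑ x, B (Fin.cons x y) = zh z y)
    (hr : ∀ j, Com G (r j))
    (hK : ∀ u v, u ≠ v → ¬ G.Adj u v → Sm d fun j => Module.finrank ℝ (Fx (r j) u ⊓ Fx (r j) v :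
      Submodule ℝ (N j)))
    (hC : ∀ u v, u ≠ v → ¬ G.Adj u v → Sm d fun j => Module.finrank ℝ (N j) -
      Module.finrank ℝ (Fx (r j) u ⊔ Fx (r j) v : Submodule ℝ (N j)))

include hd hn hz hz0 hB hB' hzB hK hC in
theorem core_zero (φ : ∀ j, X j →ₗ[ℝ] EE G (r j) 0) (hφ : ∀ j x, (hr j).dd 0 (φ j x) = 0) :
    Sm d fun j => rk (φ j) := by
  have hS := acs_SS (X := X) hd r hr hK hC
  obtain ⟨h0, -⟩ := exact_all hS hn hz hz0 hB hB' hzB
  have h1 := h0 ⟨_, mk_sec hd (sec_al φ)⟩ (by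
    ext1
    funext s
    by_cases hs : CT G s
    · rw [hS.dd_apply _ hs]
      rw [tc_mk]
      have : tc (Pr (Lf X r) (-1)) (al φ) s = 0 := by
        funext j
        ext x
        rw [tc_Lf]
        exact (hr j).dd_eq_zero (hφ j x) hs
      rw [this, map_zero]
      rfl
    · exact if_neg hs)
  refine rk_small (G := G) (r := r) hd φ fun s => ?_
  have h2 : (II X N hd).mkQ (al φ s) = 0 := congrFun (congrArg Subtype.val h1) s
  exact (Submodule.Quotient.mk_eq_zero _).1 h2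

include hd hn hz hz0 hB hB' hzB hK hC in
theorem core_pos (k : ℕ) (φ : ∀ j, X j →ₗ[ℝ] EE G (r j) (k + 1))
    (hφ : ∀ j x, (hr j).dd (k + 1) (φ j x) = 0) :
    ∃ β : ∀ j, X j →ₗ[ℝ] EE G (r j) k, Sm d fun j => rk (φ j - (hr j).dd k ∘ₗ β j) := by
  have hS := acs_SS (X := X) hd r hr hK hC
  obtain ⟨-, h0⟩ := exact_all hS hn hz hz0 hB hB' hzB
  obtain ⟨γ, hγ⟩ := h0 k ⟨_, mk_sec hd (sec_al φ)⟩ (by
    ext1
    funext s
    by_cases hs : CT G s
    · rw [hS.dd_apply _ hs]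
      rw [tc_mk]
      have : tc (Pr (Lf X r) (-1)) (al φ) s = 0 := by
        funext j
        ext x
        rw [tc_Lf]
        exact (hr j).dd_eq_zero (hφ j x) hs
      rw [this, map_zero]
      rfl
    · exact if_neg hs)
  obtain ⟨β, hβ, hβγ⟩ := lift_sec hd hr γ
  refine ⟨fun j => lo hβ j, rk_small (G := G) (r := r) hd
    (fun j => φ j - (hr j).dd k ∘ₗ lo hβ j) fun s => ?_⟩
  by_cases hs : CT G s
  · have h3 : (hS.dd k γ : (Fin (k + 1) → V) → _) s = (II X N hd).mkQ (al φ s) :=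
      congrFun (congrArg Subtype.val hγ) s
    rw [hS.dd_apply _ hs] at h3
    have h4 : (γ : (Fin k → V) → _) = fun s => (II X N hd).mkQ (β s) := by
      funext s
      exact (hβγ s).symm
    rw [h4, tc_mk] at h3
    have h5 : (II X N hd).mkQ (al φ s - tc (Pr (Lf X r) (-1)) β s) = 0 := by
      rw [map_sub, h3, sub_self]
    have h6 : al φ s - tc (Pr (Lf X r) (-1)) β s ∈ II X N hd :=
      (Submodule.Quotient.mk_eq_zero _).1 h5
    rw [mem_II] at h6
    have h7 : ∀ j, al (fun j => φ j - (hr j).dd k ∘ₗ lo hβ j) s j =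
        (al φ s - tc (Pr (Lf X r) (-1)) β s) j := by
      intro j
      ext x
      rw [Pi.sub_apply, LinearMap.sub_apply, tc_Lf]
      rw [al_apply, LinearMap.sub_apply, Submodule.coe_sub, Pi.sub_apply, LinearMap.comp_apply,
        (hr j).dd_apply _ hs]
      rfl
    simp only [h7]
    exact h6
  · have h7 : ∀ j, al (fun j => φ j - (hr j).dd k ∘ₗ lo hβ j) s j = 0 := by
      intro j
      ext x
      rw [al_apply]
      by_contra h3
      exact hs ((φ j x - (hr j).dd k (lo hβ j x)).2.supp s h3)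
    simp only [h7, rk_zero]
    exact Sm.zero

include hd hn hz hz0 hB hB' hzB hK hC in
theorem betti_zero : Sm d fun j => Module.finrank ℝ (LinearMap.ker ((hr j).dd 0)) := by
  have h2 := core_zero (X := fun j => LinearMap.ker ((hr j).dd 0)) hd hn hz hz0 hB hB' hzB hr hK hC
    (fun j => (LinearMap.ker ((hr j).dd 0)).subtype) fun j x => LinearMap.mem_ker.1 x.2
  refine Sm.mono hd h2 fun j => ?_
  unfold rk
  rw [Submodule.range_subtype]

include hd hn hz hz0 hB hB' hzB hK hC in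
theorem betti_pos (k : ℕ) : Sm d fun j => Module.finrank ℝ (LinearMap.ker ((hr j).dd (k + 1))) -
    Module.finrank ℝ (LinearMap.range ((hr j).dd k)) := by
  obtain ⟨β, h2⟩ := core_pos (X := fun j => LinearMap.ker ((hr j).dd (k + 1))) hd hn hz hz0 hB hB'
    hzB hr hK hC k (fun j => (LinearMap.ker ((hr j).dd (k + 1))).subtype)
    fun j x => LinearMap.mem_ker.1 x.2
  refine Sm.mono hd h2 fun j => ?_
  have h3 : LinearMap.ker ((hr j).dd (k + 1)) ≤ LinearMap.range ((hr j).dd k) ⊔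
      LinearMap.range ((LinearMap.ker ((hr j).dd (k + 1))).subtype - (hr j).dd k ∘ₗ β j) := by
    intro x hx
    have : x = (hr j).dd k (β j ⟨x, hx⟩) +
        ((LinearMap.ker ((hr j).dd (k + 1))).subtype - (hr j).dd k ∘ₗ β j) ⟨x, hx⟩ := by
      rw [LinearMap.sub_apply, LinearMap.comp_apply, add_sub_cancel]
      rfl
    rw [this]
    exact Submodule.add_mem_sup ⟨_, rfl⟩ ⟨_, rfl⟩
  have h4 := (Submodule.finrank_mono h3).trans (Submodule.finrank_add_le_finrank_add_finrank _ _)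
  unfold rk
  omega

end

end Pool.Agent.K4H70.L2
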