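import Pool.Agent.K4H70.L2.Ext
import Pool.Agent.K4H70.SV.Sph

/-!
The cap product with a boundary, for acyclic systems.
-/

set_option autoImplicit false
set_option linter.unusedSectionVars false

open scoped Classical

namespace Pool.Agent.K4H70.L2

open Pool.Agent.Q134.SV
open Pool.Agent.K4H70.SV hiding To ext ext_zero ext_cons ext_sub ext_zero_of ext_const_zero ext_comm
  ext_neg ext_inl hat hat_gt hat_not bch

variable {V : Type} [Fintype V] {M : Type} [AddCommGroup M] [Module ℝ M]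
  {G : SimpleGraph V} {S : V → M →ₗ[ℝ] M}

section

variable {n k : ℕ} {z : (Fin n → V) → ℝ} {B : (Fin (n + 1) → V ⊕ V × V) → ℝ}
  {α : (Fin k → V) → M}

variable (G S) in
/-- the second chain -/
noncomputable def bch {N : ℕ} (B : (Fin N → V ⊕ V × V) → ℝ) (α : (Fin k → V) → M)
    (t : List V) : M :=
  ∑ μ : Fin k → V ⊕ V × V, ev B (t.map Sum.inl ++ List.ofFn μ) • PL S 1 t (hat G S α μ)

lemma Acs.bch_swap (h : Acs G S) {N : ℕ} {B : (Fin N → V ⊕ V × V) → ℝ} (hB : Alt B)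
    (hB' : ∀ v, B v ≠ 0 → GT G v) (p : List V) (x y : V) (q : List V) :
    bch G S B α (p ++ x :: y :: q) = - bch G S B α (p ++ y :: x :: q) := by
  unfold bch
  rw [← Finset.sum_neg_distrib]
  refine Finset.sum_congr rfl fun μ _ => ?_
  have e : ∀ a b : V, (p ++ a :: b :: q).map Sum.inl ++ List.ofFn μ =
      p.map Sum.inl ++ Sum.inl a :: Sum.inl b :: (q.map Sum.inl ++ List.ofFn μ) := by
    intro a b
    simp
  by_cases h0 : ev B ((p ++ x :: y :: q).map Sum.inl ++ List.ofFn μ) = 0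
  · have h1 := h0
    rw [e, hB.ev_swap', ← e, neg_eq_zero] at h1
    rw [h0, h1, zero_smul, zero_smul, neg_zero]
  · have h1 := (gl_of_ev hB' h0).left
    rw [h.PL_perm 1 (l' := p ++ y :: x :: q) ?_ h1, e, hB.ev_swap', ← e, neg_smul]
    exact List.Perm.append_left p (List.Perm.swap y x q)

lemma Acs.bch_pos (h : Acs G S) {N : ℕ} {B : (Fin N → V ⊕ V × V) → ℝ}
    (hB' : ∀ v, B v ≠ 0 → GT G v) {t : List V} {v : V} (hv : v ∈ t) :
    S v (bch G S B α t) = bch G S B α t := by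
  unfold bch
  rw [map_sum]
  refine Finset.sum_congr rfl fun μ _ => ?_
  rw [map_smul]
  by_cases h0 : ev B (t.map Sum.inl ++ List.ofFn μ) = 0
  · rw [h0, zero_smul, zero_smul]
  · rw [h.S_PL (by norm_num) (gl_of_ev hB' h0).left hv, one_smul]

/-- the cap product of a boundary is a boundary -/
theorem Acs.cap (h : Acs G S) (hz : Alt z)
    (hz' : ∀ v, z v ≠ 0 → ∀ i j, i ≠ j → G.Adj (v i) (v j)) (hB : Alt B)
    (hB' : ∀ v, B v ≠ 0 → GT G v) (hzB : ∀ y, ∑ x, B (Fin.cons x y) = zh z y)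
    (hα : Sec G S α) (hc : ∀ s : Fin (k + 1) → V, CT G s → tc (Pr S (-1)) α s = 0) (t : List V) :
    ∑ s : Fin k → V, ev z (t ++ List.ofFn s) • PL S 1 t (α s) = ∑ v, bch G S B α (v :: t) := by
  obtain ⟨A, hA⟩ := PL_linear (S := S) 1 t
  have h1 : ∑ s : Fin k → V, ev z (t ++ List.ofFn s) • PL S 1 t (α s) =
      ∑ μ : Fin k → V ⊕ V × V, ev (zh z) (t.map Sum.inl ++ List.ofFn μ) • A (hat G S α μ) := by
    rw [sum_ev_zh z t fun μ => A (hat G S α μ)]
    refine Finset.sum_congr rfl fun s _ => ?_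
    by_cases h0 : ev z (t ++ List.ofFn s) = 0
    · rw [h0, zero_smul, zero_smul]
    · have h2 := (List.pairwise_append.1 (pw_of_ev hz' h0)).2.1
      rw [List.pairwise_ofFn] at h2
      have h3 : GT G (Sum.inl ∘ s) := by
        refine ⟨fun _ => trivial, fun i j hij => ?_⟩
        rcases lt_or_gt_of_ne hij with h' | h'
        · exact h2 h'
        · exact (h2 h').symm
      rw [hat_gt h3, ext_inl, hA]
  set K : (Fin (k + 1) → V ⊕ V × V) → ℝ := fun μ => ev B (t.map Sum.inl ++ List.ofFn μ) with hK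
  have hKalt : Alt K := hB.ev_ofFn _ _
  have hKsupp : ∀ μ, K μ ≠ 0 → GT G μ := fun μ hμ => gl_ofFn.1 (gl_of_ev hB' hμ).right
  have h2 : ∀ μ : Fin k → V ⊕ V × V, ev (zh z) (t.map Sum.inl ++ List.ofFn μ) =
      (-1 : ℝ) ^ t.length * ∑ x, K (Fin.cons x μ) := by
    intro μ
    have e1 : zh z = fun y => ∑ x, B (Fin.cons x y) := funext fun y => (hzB y).symm
    rw [e1, ev_sum (fun x y => B (Fin.cons x y)), Finset.mul_sum]
    refine Finset.sum_congr rfl fun x _ => ?_
    rw [← ev_cons, hK]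
    simp only
    rw [List.ofFn_cons, hB.ev_move, List.length_map, smul_eq_mul, ← mul_assoc, ← mul_pow]
    simp
  have h3 : ∑ x, ∑ μ : Fin k → V ⊕ V × V, K (Fin.cons x μ) • Pl S x (hat G S α μ) = 0 := by
    have h4 := sum_alt (Pl S) hKalt (hat G S α)
    have h5 : ∑ v : Fin (k + 1) → V ⊕ V × V, K v • tc (Pl S) (hat G S α) v = 0 := by
      refine Finset.sum_eq_zero fun μ _ => ?_
      by_cases h0 : K μ = 0
      · rw [h0, zero_smul]
      · rw [h.tc_hat hα hc (hKsupp μ h0), smul_zero]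
    rw [h5] at h4
    have hk : ((k : ℝ) + 1) ≠ 0 := by positivity
    exact ((smul_eq_zero.1 h4.symm).resolve_left hk)
  have h6 : ∑ x, ∑ μ : Fin k → V ⊕ V × V, K (Fin.cons x μ) • hat G S α μ =
      ∑ v : V, ∑ μ : Fin k → V ⊕ V × V, K (Fin.cons (Sum.inl v) μ) • Pr S 1 v (hat G S α μ) := by
    have h7 : ∑ x, ∑ μ : Fin k → V ⊕ V × V, K (Fin.cons x μ) • hat G S α μ =
        ∑ x, ∑ μ : Fin k → V ⊕ V × V, K (Fin.cons x μ) • (hat G S α μ - Pl S x (hat G S α μ)) := by
      simp only [smul_sub, Finset.sum_sub_distrib]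
      rw [h3, sub_zero]
    rw [h7, Fintype.sum_sum_type]
    have h8 : ∑ p : V × V, ∑ μ : Fin k → V ⊕ V × V, K (Fin.cons (Sum.inr p) μ) •
        (hat G S α μ - Pl S (Sum.inr p) (hat G S α μ)) = 0 := by
      refine Finset.sum_eq_zero fun p _ => Finset.sum_eq_zero fun μ _ => ?_
      have : Pl S (Sum.inr p) (hat G S α μ) = hat G S α μ := rfl
      rw [this, sub_self, smul_zero]
    rw [h8, add_zero]
    refine Finset.sum_congr rfl fun v _ => Finset.sum_congr rfl fun μ _ => ?_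
    congr 1
    have : Pl S (Sum.inl v) (hat G S α μ) = Pr S (-1) v (hat G S α μ) := rfl
    rw [this, sub_eq_iff_eq_add]
    exact (Pr_add v _).symm
  rw [h1, Finset.sum_congr rfl fun μ _ => by rw [h2 μ]]
  have h9 : ∑ μ : Fin k → V ⊕ V × V, ((-1 : ℝ) ^ t.length * ∑ x, K (Fin.cons x μ)) •
      A (hat G S α μ) = (-1 : ℝ) ^ t.length •
        A (∑ x, ∑ μ : Fin k → V ⊕ V × V, K (Fin.cons x μ) • hat G S α μ) := by
    rw [Finset.sum_comm, map_sum, Finset.smul_sum]
    refine Finset.sum_congr rfl fun μ _ => ?_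
    rw [← Finset.sum_smul, map_smul, smul_smul]
  rw [h9, h6, map_sum, Finset.smul_sum]
  refine Finset.sum_congr rfl fun v _ => ?_
  unfold bch
  rw [map_sum, Finset.smul_sum]
  refine Finset.sum_congr rfl fun μ _ => ?_
  have e2 : K (Fin.cons (Sum.inl v) μ) = (-1 : ℝ) ^ t.length *
      ev B ((v :: t).map Sum.inl ++ List.ofFn μ) := by
    rw [hK]
    simp only
    rw [List.ofFn_cons, hB.ev_move, List.length_map, smul_eq_mul]
    rfl
  rw [map_smul, e2, smul_smul, ← mul_assoc, ← mul_pow]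
  simp only [neg_mul_neg, mul_one, one_pow, one_mul]
  by_cases h0 : ev B ((v :: t).map Sum.inl ++ List.ofFn μ) = 0
  · rw [h0, zero_smul, zero_smul]
  · have h10 := (gl_of_ev hB' h0).left
    rw [List.pairwise_cons] at h10
    rw [PL_cons, hA, PL_comm_of]
    intro w hw m
    exact h.S_Pr_comm (h10.1 w hw).symm 1 m

end

end Pool.Agent.K4H70.L2
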