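import Pool.Agent.K4H70.L2.Zig
import Pool.Agent.K4H70.SV.Euler

/-!
The complex of the twisted cochains of an acyclic system is exact.
-/

set_option autoImplicit false
set_option linter.unusedSectionVars false

open scoped Classical

namespace Pool.Agent.K4H70.L2

open Pool.Agent.Q134.SV
open Pool.Agent.K4H70.SV hiding To ext ext_zero ext_cons ext_sub ext_zero_of ext_const_zero ext_comm
  ext_neg ext_inl hat hat_gt hat_not bch vexact Zst zig_step zig_down st st_perm zig_start zig_end
  exact_pos exact_zero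

variable {V : Type} [Fintype V] {G : SimpleGraph V} {M : Type} [AddCommGroup M] [Module ℝ M]
  {S : V → M →ₗ[ℝ] M}

lemma Com.sec_d (h : Com G S) {k : ℕ} {α : (Fin k → V) → M} (hα : Sec G S α) :
    Sec G S fun s : Fin (k + 1) → V => if CT G s then tc (Pr S (-1)) α s else 0 := by
  refine ⟨fun v i j hij => ?_, fun s hs => ?_, fun s j => ?_⟩
  · by_cases h0 : CT G v
    · rw [if_pos ((ct_swap i j).2 h0), if_pos h0]
      exact hα.alt.tc _ v i j hij
    · rw [if_neg fun h' => h0 ((ct_swap i j).1 h'), if_neg h0, neg_zero]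
  · by_contra h0
    exact hs (if_neg h0)
  · split_ifs with h0
    · unfold tc
      rw [map_sum, ← Finset.sum_neg_distrib]
      refine Finset.sum_congr rfl fun i _ => ?_
      rw [map_smul, ← smul_neg]
      congr 1
      by_cases hij : j = i
      · subst hij
        rw [h.S_Pr (by norm_num), neg_smul, one_smul]
      · rw [h.S_Pr_comm (h0 j i hij)]
        obtain ⟨l, hl⟩ := Fin.exists_succAbove_eq hij
        have := hα.neg (s ∘ i.succAbove) l
        rw [Function.comp_apply, hl] at this
        rw [this, map_neg]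
    · simp

/-- the differential -/
noncomputable def Com.dd (h : Com G S) (k : ℕ) : EE G S k →ₗ[ℝ] EE G S (k + 1) where
  toFun α := ⟨fun s => if CT G s then tc (Pr S (-1)) (α : (Fin k → V) → M) s else 0,
    h.sec_d α.2⟩
  map_add' α β := by
    ext1
    funext s
    simp only [Submodule.coe_add, Pi.add_apply]
    split_ifs
    · exact tc_add _ (α : (Fin k → V) → M) β s
    · simp
  map_smul' r α := by
    ext1
    funext s
    simp only [Submodule.coe_smul, Pi.smul_apply, RingHom.id_apply]
    split_ifs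
    · exact tc_smul _ r (α : (Fin k → V) → M) s
    · simp

lemma Com.dd_apply (h : Com G S) {k : ℕ} (α : EE G S k) {s : Fin (k + 1) → V} (hs : CT G s) :
    (h.dd k α : (Fin (k + 1) → V) → M) s = tc (Pr S (-1)) (α : (Fin k → V) → M) s := if_pos hs

lemma Com.dd_eq_zero (h : Com G S) {k : ℕ} {α : EE G S k} (h0 : h.dd k α = 0)
    {s : Fin (k + 1) → V} (hs : CT G s) : tc (Pr S (-1)) (α : (Fin k → V) → M) s = 0 := by
  rw [← h.dd_apply α hs, h0]
  rfl

lemma Com.dd_dd (h : Com G S) (k : ℕ) (α : EE G S k) : h.dd (k + 1) (h.dd k α) = 0 := by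
  ext1
  funext s
  by_cases hs : CT G s
  · rw [h.dd_apply _ hs]
    have h1 : tc (Pr S (-1)) ((h.dd k α : EE G S (k + 1)) : (Fin (k + 1) → V) → M) s =
        tc (Pr S (-1)) (tc (Pr S (-1)) (α : (Fin k → V) → M)) s :=
      tc_congr _ fun i => h.dd_apply α (hs.sub i)
    rw [h1]
    exact two_tc_zero (tc_tc _ _ _ s fun i j hij m => h.Pr_comm (hs i j hij) _ _ m)
  · exact if_neg hs

/-- exactness in degree zero -/
lemma exact_zero (hS : Acs G S) {n : ℕ} (hn : HSphere n G) {z : (Fin n → V) → ℝ}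
    (hz : LCycle G ∅ z) (hz0 : z ≠ 0) {B : (Fin (n + 1) → V ⊕ V × V) → ℝ} (hB : Alt B)
    (hB' : ∀ v, B v ≠ 0 → GT G v) (hzB : ∀ y, ∑ x, B (Fin.cons x y) = zh z y)
    {α : (Fin 0 → V) → M} (hα : Sec G S α)
    (hc : ∀ s : Fin 1 → V, CT G s → tc (Pr S (-1)) α s = 0) : α Fin.elim0 = 0 := by
  obtain ⟨y, hy⟩ : ∃ y, z y ≠ 0 := by
    by_contra hc
    push Not at hc
    exact hz0 (funext hc)
  have h1 := hS.cap hz.alt' (fun v hv => (hz.supp v hv).1) hB hB' hzB hα hc (List.ofFn y)
  have h2 : ∑ v, bch G S B α (v :: List.ofFn y) = 0 := by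
    refine Finset.sum_eq_zero fun v _ => ?_
    unfold bch
    refine Finset.sum_eq_zero fun μ _ => ?_
    by_cases h0 : ev B ((v :: List.ofFn y).map Sum.inl ++ List.ofFn μ) = 0
    · rw [h0, zero_smul]
    · exfalso
      have := pw_card hn.dim (gl_of_ev hB' h0).left
      rw [List.length_cons, List.length_ofFn] at this
      omega
  rw [h2] at h1
  have h3 : ∀ v, S v (α Fin.elim0) = (1 : ℝ) • α Fin.elim0 := by
    intro v
    have h4 := hc (fun _ => v) fun i j hij => absurd (Subsingleton.elim i j) hij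
    rw [tc_one, Pr_apply] at h4
    have h5 := (smul_eq_zero.1 h4).resolve_left (by norm_num)
    rw [neg_smul, one_smul, ← sub_eq_add_neg, sub_eq_zero] at h5
    rw [one_smul]
    exact h5.symm
  have h6 : ∀ l : List V, PL S 1 l (α Fin.elim0) = α Fin.elim0 := by
    intro l
    induction l with
    | nil => rfl
    | cons v l ih => rw [PL_cons, ih, Pr_of (by norm_num) (h3 v)]
  have h7 : ∑ s : Fin 0 → V, ev z (List.ofFn y ++ List.ofFn s) • PL S 1 (List.ofFn y) (α s) =
      z y • α Fin.elim0 := by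
    rw [Fintype.sum_eq_single (Fin.elim0 : Fin 0 → V) fun s hs =>
      absurd (Subsingleton.elim s _) hs, h6]
    congr 1
    simp [ev_ofFn]
  rw [h7] at h1
  exact (smul_eq_zero.1 h1).resolve_left hy


/-- **Theorem**: if the fundamental cycle of a homology sphere is a boundary in the complex of labels,
then the twisted cohomology vanishes in all degrees, for each acyclic system. -/
theorem exact_all (hS : Acs G S) {n : ℕ} (hn : HSphere n G) {z : (Fin n → V) → ℝ}
    (hz : LCycle G ∅ z) (hz0 : z ≠ 0) {B : (Fin (n + 1) → V ⊕ V × V) → ℝ} (hB : Alt B)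
    (hB' : ∀ v, B v ≠ 0 → GT G v) (hzB : ∀ y, ∑ x, B (Fin.cons x y) = zh z y) :
    (∀ α : EE G S 0, hS.dd 0 α = 0 → α = 0) ∧
      ∀ k, ∀ α : EE G S (k + 1), hS.dd (k + 1) α = 0 → ∃ γ, hS.dd k γ = α := by
  refine ⟨fun α hα => ?_, fun k α hα => ?_⟩
  · ext1
    funext s
    rw [Subsingleton.elim s Fin.elim0]
    exact exact_zero hS hn hz hz0 hB hB' hzB α.2 fun s hs => hS.dd_eq_zero hα hs
  · by_cases hk : k + 1 ≤ n
    · obtain ⟨γ, hγ, hγ'⟩ := exact_pos hS hn hz hz0 hB hB' hzB α.2
        (fun s hs => hS.dd_eq_zero hα hs) hk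
      refine ⟨⟨γ, hγ⟩, ?_⟩
      ext1
      funext s
      by_cases hs : CT G s
      · rw [hS.dd_apply _ hs, hγ' s hs]
      · have h2 : (α : (Fin (k + 1) → V) → M) s = 0 := by
          by_contra h0
          exact hs (α.2.supp s h0)
        rw [h2]
        exact if_neg hs
    · refine ⟨0, ?_⟩
      rw [map_zero]
      symm
      refine EE_zero_of (fun s hs => ?_) α
      have h1 : (Finset.univ.image s).card = k + 1 := by
        rw [Finset.card_image_of_injective _ (ct_inj hs), Finset.card_univ, Fintype.card_fin]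
      have h2 := card_le_of_cq hn.dim (cq_image hs)
      omega

end Pool.Agent.K4H70.L2
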