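import Pool.Agent.K4H70.L2.Sys
import Pool.Agent.K4H70.SV.Ext

/-!
Extension of the twisted cocycles to the labels, for acyclic systems.
-/

set_option autoImplicit false
set_option linter.unusedSectionVars false

open scoped Classical

namespace Pool.Agent.K4H70.L2

open Pool.Agent.Q134.SV
open Pool.Agent.K4H70.SV hiding To ext ext_zero ext_cons ext_sub ext_zero_of ext_const_zero ext_comm
  ext_neg ext_inl hat hat_gt hat_not

variable {V : Type} {M : Type} [AddCommGroup M] [Module ℝ M]

/-- the operators of a label -/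
noncomputable def To (S : V → M →ₗ[ℝ] M) : V ⊕ V × V → Bool → (M →ₗ[ℝ] M)
  | Sum.inl _, _ => (1 / 2 : ℝ) • LinearMap.id
  | Sum.inr p, false => Qp S p.1 p.2
  | Sum.inr p, true => Qp S p.2 p.1

variable {G : SimpleGraph V} {S : V → M →ₗ[ℝ] M}

lemma Acs.ident' (h : Acs G S) {x : V ⊕ V × V} (hx : Va G x) (m : M) :
    ∑ ε : Bool, To S x ε (Pr S (-1) (cv x ε) m) = Pl S x m := by
  rcases x with v | p
  · simp only [To, cv, Pl, Fintype.sum_bool, LinearMap.smul_apply, LinearMap.id_coe, id_eq]
    module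
  · simp only [To, cv, Pl, Fintype.sum_bool, LinearMap.smul_apply, LinearMap.id_coe, id_eq]
    rw [add_comm]
    exact h.ident hx.1 hx.2 m

lemma Acs.To_S (h : Acs G S) {u : V} {x : V ⊕ V × V} (hx : Cmt G u x) (ε : Bool) (m : M) :
    S u (To S x ε m) = To S x ε (S u m) := by
  rcases x with v | p
  · simp only [To, LinearMap.smul_apply, LinearMap.id_coe, id_eq, map_smul]
  · obtain ⟨h1, h2⟩ := hx p rfl
    cases ε
    · exact Qp_comm_of (fun m => (h.comm u p.1 m h1).symm) (fun m => (h.comm u p.2 m h2).symm) m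
    · exact Qp_comm_of (fun m => (h.comm u p.2 m h2).symm) (fun m => (h.comm u p.1 m h1).symm) m

lemma Acs.To_Pr (h : Acs G S) {u : V} {x : V ⊕ V × V} (hx : Cmt G u x) (ε : Bool) (r : ℝ)
    (m : M) : Pr S r u (To S x ε m) = To S x ε (Pr S r u m) :=
  Pr_comm_of (fun m => h.To_S hx ε m) m

lemma Acs.To_To (h : Acs G S) {x y : V ⊕ V × V} (hxy : LA G x y) (ε ε' : Bool) (m : M) :
    To S x ε (To S y ε' m) = To S y ε' (To S x ε m) := by
  rcases x with v | p
  · simp only [To, LinearMap.smul_apply, LinearMap.id_coe, id_eq, map_smul]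
  · rcases y with w | q
    · simp only [To, LinearMap.smul_apply, LinearMap.id_coe, id_eq, map_smul]
    · obtain ⟨h1, h2, h3, h4⟩ := hxy
      have key : ∀ u, G.Adj u q.1 ∧ G.Adj u q.2 → ∀ m, S u (To S (Sum.inr q) ε' m) =
          To S (Sum.inr q) ε' (S u m) := by
        intro u hu m
        exact h.To_S (x := Sum.inr q) (fun q' hq' => by cases hq'; exact hu) ε' m
      cases ε
      · exact (Qp_comm_of (key p.1 ⟨h1, h2⟩) (key p.2 ⟨h3, h4⟩) m).symm
      · exact (Qp_comm_of (key p.2 ⟨h3, h4⟩) (key p.1 ⟨h1, h2⟩) m).symm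

lemma Acs.Pl_To (h : Acs G S) {x y : V ⊕ V × V} (hxy : Sep G x y) (ε : Bool) (m : M) :
    Pl S y (To S x ε m) = To S x ε (Pl S y m) := by
  rcases y with w | q
  · refine h.To_Pr (u := w) (x := x) ?_ ε (-1) m
    rintro p rfl
    exact ⟨(hxy false false).symm, (hxy true false).symm⟩
  · rfl

variable (S) in
/-- the extension -/
noncomputable def ext : ∀ k : ℕ, ((Fin k → V) → M) → (Fin k → V ⊕ V × V) → M
  | 0, α, _ => α Fin.elim0
  | k + 1, α, μ => ∑ ε : Bool,
      To S (μ 0) ε (ext k (fun s => α (Fin.cons (cv (μ 0) ε) s)) (Fin.tail μ))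

lemma ext_zero (α : (Fin 0 → V) → M) (μ : Fin 0 → V ⊕ V × V) : ext S 0 α μ = α Fin.elim0 := rfl

lemma ext_cons {k : ℕ} (α : (Fin (k + 1) → V) → M) (x : V ⊕ V × V) (μ : Fin k → V ⊕ V × V) :
    ext S (k + 1) α (Fin.cons x μ) =
      ∑ ε : Bool, To S x ε (ext S k (fun s => α (Fin.cons (cv x ε) s)) μ) := rfl

lemma ext_sub : ∀ (k : ℕ) (α β : (Fin k → V) → M) (μ : Fin k → V ⊕ V × V),
    ext S k (fun s => α s - β s) μ = ext S k α μ - ext S k β μ
  | 0, α, β, μ => rfl
  | k + 1, α, β, μ => by
    obtain ⟨x, g, rfl⟩ : ∃ x g, μ = (Fin.cons x g : Fin (k + 1) → V ⊕ V × V) :=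
      ⟨μ 0, Fin.tail μ, (Fin.cons_self_tail μ).symm⟩
    rw [ext_cons, ext_cons, ext_cons, ← Finset.sum_sub_distrib]
    refine Finset.sum_congr rfl fun ε _ => ?_
    rw [← map_sub, ← ext_sub k]

lemma ext_zero_of : ∀ (k : ℕ) (α : (Fin k → V) → M) (μ : Fin k → V ⊕ V × V),
    (∀ c : Fin k → V, (∀ i, ∃ ε, c i = cv (μ i) ε) → α c = 0) → ext S k α μ = 0
  | 0, α, μ, h => h _ fun i => i.elim0
  | k + 1, α, μ, h => by
    obtain ⟨x, g, rfl⟩ : ∃ x g, μ = (Fin.cons x g : Fin (k + 1) → V ⊕ V × V) :=
      ⟨μ 0, Fin.tail μ, (Fin.cons_self_tail μ).symm⟩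
    rw [ext_cons]
    refine Finset.sum_eq_zero fun ε _ => ?_
    rw [ext_zero_of k, map_zero]
    intro c hc
    refine h _ fun i => ?_
    refine Fin.cases ?_ (fun i => ?_) i
    · exact ⟨ε, rfl⟩
    · simpa using hc i

lemma ext_const_zero (k : ℕ) (μ : Fin k → V ⊕ V × V) : ext S k (fun _ => (0 : M)) μ = 0 :=
  ext_zero_of k _ μ fun _ _ => rfl

lemma ext_comm (A : M →ₗ[ℝ] M) : ∀ (k : ℕ) (α : (Fin k → V) → M) (μ : Fin k → V ⊕ V × V),
    (∀ i ε m, A (To S (μ i) ε m) = To S (μ i) ε (A m)) →
    A (ext S k α μ) = ext S k (fun s => A (α s)) μ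
  | 0, α, μ, h => rfl
  | k + 1, α, μ, h => by
    obtain ⟨x, g, rfl⟩ : ∃ x g, μ = (Fin.cons x g : Fin (k + 1) → V ⊕ V × V) :=
      ⟨μ 0, Fin.tail μ, (Fin.cons_self_tail μ).symm⟩
    rw [ext_cons, ext_cons, map_sum]
    refine Finset.sum_congr rfl fun ε _ => ?_
    have h0 := h 0 ε
    rw [Fin.cons_zero] at h0
    rw [h0, ext_comm A k]
    intro i ε m
    have := h i.succ ε m
    rwa [Fin.cons_succ] at this

lemma ext_neg (k : ℕ) (α : (Fin k → V) → M) (μ : Fin k → V ⊕ V × V) :
    ext S k (fun s => - α s) μ = - ext S k α μ := by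
  have := ext_sub (S := S) k (fun _ => (0 : M)) α μ
  rw [ext_const_zero, zero_sub] at this
  simpa using this

lemma ext_inl : ∀ (k : ℕ) (α : (Fin k → V) → M) (s : Fin k → V),
    ext S k α (Sum.inl ∘ s) = α s
  | 0, α, s => congrArg α (Subsingleton.elim _ _)
  | k + 1, α, s => by
    obtain ⟨x, g, rfl⟩ : ∃ x g, s = (Fin.cons x g : Fin (k + 1) → V) :=
      ⟨s 0, Fin.tail s, (Fin.cons_self_tail s).symm⟩
    have e : (Sum.inl ∘ (Fin.cons x g : Fin (k + 1) → V) : Fin (k + 1) → V ⊕ V × V) =
        Fin.cons (Sum.inl x) (Sum.inl ∘ g) := by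
      funext i
      refine Fin.cases ?_ (fun i => ?_) i <;> simp
    rw [e, ext_cons]
    simp only [ext_inl k, To, cv, Fintype.sum_bool, LinearMap.smul_apply, LinearMap.id_coe, id_eq]
    module

/-- the extension commutes with the coboundaries -/
theorem Acs.tc_ext (h : Acs G S) : ∀ (k : ℕ) (α : (Fin k → V) → M)
    (μ : Fin (k + 1) → V ⊕ V × V), (∀ i, Va G (μ i)) → (∀ i j, i ≠ j → Sep G (μ i) (μ j)) →
    tc (Pl S) (ext S k α) μ = ext S (k + 1) (tc (Pr S (-1)) α) μ
  | 0, α, μ, hv, hs => by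
    obtain ⟨x, g, rfl⟩ : ∃ x g, μ = (Fin.cons x g : Fin 1 → V ⊕ V × V) :=
      ⟨μ 0, Fin.tail μ, (Fin.cons_self_tail μ).symm⟩
    rw [tc_one, ext_cons, ext_zero]
    simp only [ext_zero, tc_one, Fin.cons_zero]
    have := hv 0
    rw [Fin.cons_zero] at this
    exact (h.ident' this _).symm
  | k + 1, α, μ, hv, hs => by
    obtain ⟨x, g, rfl⟩ : ∃ x g, μ = (Fin.cons x g : Fin (k + 2) → V ⊕ V × V) :=
      ⟨μ 0, Fin.tail μ, (Fin.cons_self_tail μ).symm⟩
    have hx : Va G x := by
      have := hv 0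
      rwa [Fin.cons_zero] at this
    have hsx : ∀ i, Sep G x (g i) := fun i => by
      have := hs 0 i.succ (Fin.succ_ne_zero _).symm
      rwa [Fin.cons_zero, Fin.cons_succ] at this
    rw [tc_cons, ext_cons]
    have h1 : (fun g' : Fin k → V ⊕ V × V => ext S (k + 1) α (Fin.cons x g')) = fun g' =>
        ∑ ε : Bool, To S x ε (ext S k (fun s => α (Fin.cons (cv x ε) s)) g') := by
      funext g'
      exact ext_cons α x g'
    rw [h1, tc_sum]
    have h2 : ∀ ε : Bool, tc (Pl S)
        (fun g' => To S x ε (ext S k (fun s => α (Fin.cons (cv x ε) s)) g')) g =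
        To S x ε (ext S (k + 1) (tc (Pr S (-1)) fun s => α (Fin.cons (cv x ε) s)) g) := by
      intro ε
      rw [tc_comm _ _ _ _ fun i m => h.Pl_To (hsx i) ε m]
      rw [h.tc_ext k _ g (fun i => by simpa using hv i.succ) fun i j hij => by
        have := hs i.succ j.succ fun e => hij (Fin.succ_injective _ e)
        rwa [Fin.cons_succ, Fin.cons_succ] at this]
    have h3 : ∀ ε : Bool, To S x ε
        (ext S (k + 1) (fun s => tc (Pr S (-1)) α (Fin.cons (cv x ε) s)) g) =
        To S x ε (Pr S (-1) (cv x ε) (ext S (k + 1) α g)) -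
        To S x ε (ext S (k + 1) (tc (Pr S (-1)) fun s => α (Fin.cons (cv x ε) s)) g) := by
      intro ε
      have e : (fun s : Fin (k + 1) → V => tc (Pr S (-1)) α (Fin.cons (cv x ε) s)) = fun s =>
          Pr S (-1) (cv x ε) (α s) - tc (Pr S (-1)) (fun s => α (Fin.cons (cv x ε) s)) s := by
        funext s
        exact tc_cons _ α _ s
      rw [e, ext_sub, map_sub, ext_comm (Pr S (-1) (cv x ε))]
      intro i ε' m
      exact h.To_Pr (Cmt.of_sep (hsx i) ε) ε' (-1) m
    rw [Finset.sum_congr rfl fun ε _ => h2 ε, Finset.sum_congr rfl fun ε _ => h3 ε,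
      Finset.sum_sub_distrib, h.ident' hx]

variable (G S) in
/-- the extension, cut off -/
noncomputable def hat {k : ℕ} (α : (Fin k → V) → M) (μ : Fin k → V ⊕ V × V) : M :=
  if GT G μ then ext S k α μ else 0

lemma hat_gt {k : ℕ} {α : (Fin k → V) → M} {μ : Fin k → V ⊕ V × V} (h : GT G μ) :
    hat G S α μ = ext S k α μ := if_pos h

lemma hat_not {k : ℕ} {α : (Fin k → V) → M} {μ : Fin k → V ⊕ V × V} (h : ¬ GT G μ) :
    hat G S α μ = 0 := if_neg h

theorem Acs.hat_alt (h : Acs G S) : ∀ (k : ℕ) (α : (Fin k → V) → M), Alt α → Alt (hat G S α)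
  | 0, α, _ => fun _ i => i.elim0
  | 1, α, _ => fun _ i j hij => absurd (Subsingleton.elim i j) hij
  | k + 2, α, hα => by
    refine alt_of ?_ ?_
    · intro v i j hij
      obtain ⟨x, g, rfl⟩ : ∃ x g, v = (Fin.cons x g : Fin (k + 2) → V ⊕ V × V) :=
        ⟨v 0, Fin.tail v, (Fin.cons_self_tail v).symm⟩
      by_cases hv : GT G (Fin.cons x g : Fin (k + 2) → V ⊕ V × V)
      · rw [hat_gt hv, hat_gt ((GT.swap _ _).2 hv), cons_swap, ext_cons, ext_cons,
          ← Finset.sum_neg_distrib]
        refine Finset.sum_congr rfl fun ε _ => ?_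
        have hg : GT G g := (gt_cons.1 hv).2.2
        have := h.hat_alt (k + 1) (fun s => α (Fin.cons (cv x ε) s)) (hα.cons _) g i j hij
        rw [hat_gt hg, hat_gt ((GT.swap _ _).2 hg)] at this
        rw [this, map_neg]
      · rw [hat_not hv, hat_not fun h' => hv ((GT.swap _ _).1 h'), neg_zero]
    · intro v
      obtain ⟨x, g, rfl⟩ : ∃ x g, v = (Fin.cons x g : Fin (k + 2) → V ⊕ V × V) :=
        ⟨v 0, Fin.tail v, (Fin.cons_self_tail v).symm⟩
      obtain ⟨y, w, rfl⟩ : ∃ y w, g = (Fin.cons y w : Fin (k + 1) → V ⊕ V × V) :=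
        ⟨g 0, Fin.tail g, (Fin.cons_self_tail g).symm⟩
      by_cases hv : GT G (Fin.cons x (Fin.cons y w : Fin (k + 1) → V ⊕ V × V) :
        Fin (k + 2) → V ⊕ V × V)
      · rw [hat_gt hv, hat_gt ((GT.swap _ _).2 hv), cons_cons_swap]
        have hxy : LA G x y := by
          have := (gt_cons.1 hv).2.1 0
          rwa [Fin.cons_zero] at this
        simp only [ext_cons, map_sum]
        rw [Finset.sum_comm, ← Finset.sum_neg_distrib]
        refine Finset.sum_congr rfl fun ε _ => ?_
        rw [← Finset.sum_neg_distrib]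
        refine Finset.sum_congr rfl fun ε' _ => ?_
        rw [h.To_To (la_symm hxy)]
        have e : (fun s : Fin k → V => α (Fin.cons (cv y ε') (Fin.cons (cv x ε) s :
            Fin (k + 1) → V))) = fun s => - α (Fin.cons (cv x ε) (Fin.cons (cv y ε') s :
            Fin (k + 1) → V)) := by
          funext s
          rw [← cons_cons_swap, hα _ _ _ (by simp)]
        rw [e, ext_neg, map_neg, map_neg]
      · rw [hat_not hv, hat_not fun h' => hv ((GT.swap _ _).1 h'), neg_zero]

theorem Acs.tc_hat (h : Acs G S) {k : ℕ} {α : (Fin k → V) → M} (hα : Sec G S α)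
    (hc : ∀ s : Fin (k + 1) → V, CT G s → tc (Pr S (-1)) α s = 0)
    {μ : Fin (k + 1) → V ⊕ V × V} (hμ : GT G μ) : tc (Pl S) (hat G S α) μ = 0 := by
  by_cases hs : ∀ i j, i ≠ j → Sep G (μ i) (μ j)
  · have h1 : tc (Pl S) (hat G S α) μ = tc (Pl S) (ext S k α) μ :=
      tc_congr _ fun i => hat_gt (hμ.comp Fin.succAbove_right_injective)
    rw [h1, h.tc_ext k α μ hμ.1 hs]
    refine ext_zero_of _ _ _ fun c hc' => hc c fun i j hij => ?_
    obtain ⟨ε, hε⟩ := hc' i
    obtain ⟨ε', hε'⟩ := hc' j
    rw [hε, hε']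
    exact hs i j hij ε ε'
  · obtain ⟨i, j, hij, p, u, hi, hj, hu⟩ : ∃ i j, i ≠ j ∧ ∃ p u, μ i = Sum.inr p ∧
        μ j = Sum.inl u ∧ (u = p.1 ∨ u = p.2) := by
      unfold SV.Sep at hs
      push Not at hs
      obtain ⟨i, j, hij, ε, ε', hε⟩ := hs
      have hL := hμ.2 i j hij
      rcases hi : μ i with v | p
      · rcases hj : μ j with w | q
        · rw [hi, hj] at hε hL
          exact absurd hL hε
        · rw [hi, hj] at hε hL
          refine ⟨j, i, hij.symm, q, v, hj, hi, ?_⟩
          rcases hL with h1 | h1 | ⟨h1, h2⟩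
          · exact Or.inl h1
          · exact Or.inr h1
          · exfalso
            cases ε'
            · exact hε h1
            · exact hε h2
      · rcases hj : μ j with w | q
        · rw [hi, hj] at hε hL
          refine ⟨i, j, hij, p, w, hi, hj, ?_⟩
          rcases hL with h1 | h1 | ⟨h1, h2⟩
          · exact Or.inl h1
          · exact Or.inr h1
          · exfalso
            cases ε
            · exact hε h1.symm
            · exact hε h2.symm
        · rw [hi, hj] at hε hL
          exfalso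
          obtain ⟨h1, h2, h3, h4⟩ := hL
          cases ε <;> cases ε'
          · exact hε h1
          · exact hε h2
          · exact hε h3
          · exact hε h4
    cases k with
    | zero => exact absurd (Fin.ext (by omega)) hij
    | succ k =>
      have hF : Alt (tc (Pl S) (hat G S α)) := (h.hat_alt _ α hα.alt).tc _
      refine hF.swap_zero μ 0 i ?_
      set μ₁ := μ ∘ Equiv.swap 0 i with hμ₁
      set j' := Equiv.swap 0 i j with hj'
      have hj'0 : j' ≠ 0 := by
        intro e
        have := congrArg (Equiv.swap 0 i) e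
        rw [hj', Equiv.swap_apply_self, Equiv.swap_apply_left] at this
        exact hij this.symm
      refine hF.swap_zero μ₁ 1 j' ?_
      have hμ₂ : GT G (μ₁ ∘ Equiv.swap 1 j') := (GT.swap _ _).2 ((GT.swap _ _).2 hμ)
      have e0 : (μ₁ ∘ Equiv.swap 1 j') 0 = Sum.inr p := by
        simp only [Function.comp_apply]
        have : (0 : Fin (k + 2)) ≠ 1 := by simp
        rw [Equiv.swap_apply_of_ne_of_ne this (Ne.symm hj'0), hμ₁]
        simp only [Function.comp_apply]
        rw [Equiv.swap_apply_left, hi]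
      have e1 : (μ₁ ∘ Equiv.swap 1 j') 1 = Sum.inl u := by
        simp only [Function.comp_apply]
        rw [Equiv.swap_apply_left, hμ₁, hj']
        simp only [Function.comp_apply]
        rw [Equiv.swap_apply_self, hj]
      obtain ⟨x, g, hxg⟩ : ∃ x g, μ₁ ∘ Equiv.swap 1 j' = (Fin.cons x g : Fin (k + 2) → V ⊕ V × V) :=
        ⟨(μ₁ ∘ Equiv.swap 1 j') 0, Fin.tail (μ₁ ∘ Equiv.swap 1 j'), (Fin.cons_self_tail _).symm⟩
      obtain ⟨y, ν, rfl⟩ : ∃ y w, g = (Fin.cons y w : Fin (k + 1) → V ⊕ V × V) :=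
        ⟨g 0, Fin.tail g, (Fin.cons_self_tail g).symm⟩
      rw [hxg] at hμ₂ e0 e1 ⊢
      rw [Fin.cons_zero] at e0
      have e1' : y = Sum.inl u := e1
      subst e0 e1'
      obtain ⟨hVp, hLp, hg⟩ := gt_cons.1 hμ₂
      obtain ⟨hVu, hLu, hν⟩ := gt_cons.1 hg
      have hν1 : GT G (Fin.cons (Sum.inr p) ν : Fin (k + 1) → V ⊕ V × V) :=
        gt_cons.2 ⟨hVp, fun i => by simpa using hLp i.succ, hν⟩
      have hzero : ∀ ν' : Fin k → V ⊕ V × V, ∀ (e : k = k), True := fun _ _ => trivial
      -- the formula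
      have hform : tc (Pl S) (hat G S α)
          (Fin.cons (Sum.inr p) (Fin.cons (Sum.inl u) ν : Fin (k + 1) → V ⊕ V × V)) =
          hat G S α (Fin.cons (Sum.inl u) ν) - Pr S (-1) u (hat G S α (Fin.cons (Sum.inr p) ν)) := by
        rw [tc_cons]
        congr 1
        cases k with
        | zero =>
          rw [tc_one, Fin.cons_zero]
          congr 3
          exact Subsingleton.elim _ _
        | succ k =>
          rw [tc_cons]
          have h0 : (fun g' : Fin k → V ⊕ V × V => hat G S α (Fin.cons (Sum.inr p)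
              (Fin.cons (Sum.inl u) g' : Fin (k + 1) → V ⊕ V × V))) = fun _ => 0 := by
            funext g'
            unfold hat
            split_ifs with hgt
            · rw [ext_cons]
              refine Finset.sum_eq_zero fun ε _ => ?_
              rw [ext_cons]
              rw [Finset.sum_eq_zero, map_zero]
              intro ε' _
              have hz : (fun s : Fin k → V => α (Fin.cons (cv (Sum.inr p) ε)
                  (Fin.cons (cv (Sum.inl u) ε') s : Fin (k + 1) → V))) = fun _ => 0 := by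
                funext s
                have hcu : cv (Sum.inl u : V ⊕ V × V) ε' = u := rfl
                rw [hcu]
                by_contra h5
                have h6 := hα.supp _ h5 0 (Fin.succ 0) (by simp)
                rw [Fin.cons_zero, Fin.cons_succ, Fin.cons_zero] at h6
                cases ε
                · change G.Adj p.1 u at h6
                  rcases hu with rfl | rfl
                  · exact h6.ne rfl
                  · exact hVp.2 h6
                · change G.Adj p.2 u at h6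
                  rcases hu with rfl | rfl
                  · exact hVp.2 h6.symm
                  · exact h6.ne rfl
              rw [hz, ext_const_zero, map_zero]
            · rfl
          rw [h0]
          have h00 : tc (Pl S) (fun _ : Fin k → V ⊕ V × V => (0 : M)) ν = 0 := by
            unfold tc
            simp
          rw [h00, sub_zero]
          rfl
      rw [hform, hat_gt hg, hat_gt hν1, ext_cons, ext_cons]
      simp only [Fintype.sum_bool, To, cv, LinearMap.smul_apply, LinearMap.id_coe, id_eq]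
      have hneg : ∀ w, (w = p.1 ∨ w = p.2) →
          S w (ext S k (fun s => α (Fin.cons w s)) ν) = - ext S k (fun s => α (Fin.cons w s)) ν := by
        intro w hw
        rw [ext_comm (S w)]
        · rw [← ext_neg]
          congr 1
          funext s
          have := hα.neg (Fin.cons w s) 0
          rwa [Fin.cons_zero] at this
        · intro i ε m
          refine h.To_S ?_ ε m
          intro q hq
          have hL : LA G (Sum.inr p) (ν i) := by simpa using hLp i.succ
          rw [hq] at hL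
          obtain ⟨h1, h2, h3, h4⟩ := hL
          rcases hw with rfl | rfl
          · exact ⟨h1, h2⟩
          · exact ⟨h3, h4⟩
      have hone : ∀ m : M, (1 / 2 : ℝ) • m + (1 / 2 : ℝ) • m = m := by
        intro m
        module
      rw [hone]
      have hVn : p.2 ≠ p.1 := hVp.1.symm
      have hVa : ¬ G.Adj p.2 p.1 := fun h' => hVp.2 h'.symm
      rcases hu with rfl | rfl
      · rw [map_add, h.orth hVn hVa, h.split hVp.1 hVp.2 (hneg p.1 (Or.inl rfl)), zero_add, sub_self]
      · rw [map_add, h.orth hVp.1 hVp.2, h.split hVn hVa (hneg p.2 (Or.inr rfl)), add_zero, sub_self]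

end Pool.Agent.K4H70.L2
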