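import Pool.Agent.K4H70.L2.Orb

/-!
The Betti numbers of the finite coverings of a Davis manifold of zero simplicial volume.
-/

set_option autoImplicit false
set_option linter.unusedSectionVars false

open scoped Classical Topology
open Filter

namespace Pool.Agent.K4H70.L2

open Pool.Agent.W907.SG (W)
open Pool.Agent.Q134.SV
open Pool.Agent.K4H70.SV hiding To ext ext_zero ext_cons ext_sub ext_zero_of ext_const_zero ext_comm
  ext_neg ext_inl hat hat_gt hat_not bch vexact Zst zig_step zig_down st st_perm zig_start zig_end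
  exact_pos exact_zero

/-- a Farber sequence of subgroups of finite index -/
def Farber {D : Type} [Group D] (Γ : ℕ → Subgroup D) : Prop :=
  (∀ j, (Γ j).index ≠ 0) ∧ ∀ g : D, g ≠ 1 →
    Tendsto (fun j => (Nat.card {q : D ⧸ Γ j // g • q = q} : ℝ) / (Γ j).index) atTop (𝓝 0)

section

variable {V : Type} (G : SimpleGraph V)

/-- the cochains of the quotient of the Davis complex -/
def cochains (Γ : Subgroup (W G)) (k : ℕ) : Submodule ℝ (W G → (Fin k → V) → ℝ) where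
  carrier := {c | (∀ g ∈ Γ, ∀ x, c (g * x) = c x) ∧
    (∀ x s, ∀ i j : Fin k, i ≠ j → c x (s ∘ Equiv.swap i j) = - c x s) ∧
    (∀ x s, c x s ≠ 0 → ∀ i j, i ≠ j → G.Adj (s i) (s j)) ∧
    (∀ x s i, c (x * gen G (s i)) s = - c x s)}
  add_mem' := by
    rintro c c' ⟨h1, h2, h3, h4⟩ ⟨h1', h2', h3', h4'⟩
    refine ⟨fun g hg x => ?_, fun x s i j hij => ?_, fun x s hs => ?_, fun x s i => ?_⟩
    · simp only [Pi.add_apply, h1 g hg x, h1' g hg x]
    · simp only [Pi.add_apply, h2 x s i j hij, h2' x s i j hij]; ring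
    · by_cases h0 : c x s = 0
      · exact h3' x s fun h => hs (by simp [h0, h])
      · exact h3 x s h0
    · simp only [Pi.add_apply, h4 x s i, h4' x s i]; ring
  zero_mem' := by simp
  smul_mem' := by
    rintro a c ⟨h1, h2, h3, h4⟩
    refine ⟨fun g hg x => ?_, fun x s i j hij => ?_, fun x s hs => ?_, fun x s i => ?_⟩
    · simp only [Pi.smul_apply, h1 g hg x]
    · simp only [Pi.smul_apply, h2 x s i j hij, smul_neg]
    · exact h3 x s fun h => hs (by simp [h])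
    · simp only [Pi.smul_apply, h4 x s i, smul_neg]

/-- the coboundary -/
noncomputable def coboundary (k : ℕ) :
    (W G → (Fin k → V) → ℝ) →ₗ[ℝ] (W G → (Fin (k + 1) → V) → ℝ) where
  toFun c x s := if ∀ i j, i ≠ j → G.Adj (s i) (s j) then
    ∑ i : Fin (k + 1), (-1 : ℝ) ^ (i : ℕ) *
      (c (x * gen G (s i)) (s ∘ i.succAbove) - c x (s ∘ i.succAbove)) else 0
  map_add' c c' := by
    funext x s
    simp only [Pi.add_apply]
    split_ifs
    · rw [← Finset.sum_add_distrib]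
      exact Finset.sum_congr rfl fun i _ => by ring
    · rw [add_zero]
  map_smul' a c := by
    funext x s
    simp only [Pi.smul_apply, RingHom.id_apply, smul_eq_mul]
    split_ifs
    · rw [Finset.mul_sum]
      exact Finset.sum_congr rfl fun i _ => by ring
    · rw [mul_zero]

/-- the Betti numbers -/
noncomputable def betti (Γ : Subgroup (W G)) : ℕ → ℕ
  | 0 => Module.finrank ℝ (cochains G Γ 0 ⊓ LinearMap.ker (coboundary G 0) : Submodule ℝ _)
  | k + 1 => Module.finrank ℝ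
      (cochains G Γ (k + 1) ⊓ LinearMap.ker (coboundary G (k + 1)) : Submodule ℝ _) -
      Module.finrank ℝ ((cochains G Γ k).map (coboundary G k))

/-- the operators -/
noncomputable def rr (Γ : Subgroup (W G)) (v : V) : ((W G ⧸ Γ) → ℝ) →ₗ[ℝ] ((W G ⧸ Γ) → ℝ) :=
  fo (W G ⧸ Γ) (gen G v)

end

variable {V : Type} {G : SimpleGraph V}

lemma gen_gen (v : V) : gen G v * gen G v = 1 := gen_sq G v

lemma com_rr (Γ : Subgroup (W G)) : Com G (rr G Γ) := by
  refine ⟨fun v m => ?_, fun u v m huv => ?_⟩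
  · funext q
    change m (gen G v • gen G v • q) = m q
    rw [smul_smul, gen_gen, one_smul]
  · funext q
    change m (gen G v • gen G u • q) = m (gen G u • gen G v • q)
    rw [smul_smul, smul_smul, gen_comm G huv]

/-- the comparison -/
noncomputable def Ps (Γ : Subgroup (W G)) (k : ℕ) :
    ((Fin k → V) → (W G ⧸ Γ) → ℝ) →ₗ[ℝ] (W G → (Fin k → V) → ℝ) where
  toFun α x s := α s ((x⁻¹ : W G) : W G ⧸ Γ)
  map_add' _ _ := rfl
  map_smul' _ _ := rfl

lemma Ps_inj (Γ : Subgroup (W G)) (k : ℕ) : Function.Injective (Ps Γ k) := by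
  intro α β h
  funext s q
  obtain ⟨y, rfl⟩ := QuotientGroup.mk_surjective q
  have := congrFun (congrFun h y⁻¹) s
  change α s (((y⁻¹)⁻¹ : W G) : W G ⧸ Γ) = β s (((y⁻¹)⁻¹ : W G) : W G ⧸ Γ) at this
  rwa [inv_inv] at this

lemma Ps_mem {Γ : Subgroup (W G)} {k : ℕ} {α : (Fin k → V) → (W G ⧸ Γ) → ℝ}
    (hα : Sec G (rr G Γ) α) : Ps Γ k α ∈ cochains G Γ k := by
  refine ⟨fun g hg x => ?_, fun x s i j hij => ?_, fun x s hs => ?_, fun x s i => ?_⟩
  · funext s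
    change α s (((g * x)⁻¹ : W G) : W G ⧸ Γ) = α s ((x⁻¹ : W G) : W G ⧸ Γ)
    congr 1
    rw [QuotientGroup.eq]
    have : ((g * x)⁻¹)⁻¹ * x⁻¹ = g := by group
    rwa [this]
  · exact congrFun (hα.alt s i j hij) _
  · exact hα.supp s fun h => hs (congrFun h _)
  · have := congrFun (hα.neg s i) ((x⁻¹ : W G) : W G ⧸ Γ)
    change α s (gen G (s i) • ((x⁻¹ : W G) : W G ⧸ Γ)) = - α s ((x⁻¹ : W G) : W G ⧸ Γ) at this
    change α s (((x * gen G (s i))⁻¹ : W G) : W G ⧸ Γ) = - α s ((x⁻¹ : W G) : W G ⧸ Γ)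
    rw [← this]
    congr 1
    rw [mul_inv_rev, inv_eq_of_mul_eq_one_left (gen_gen (G := G) (s i))]
    rfl

lemma exists_Ps {Γ : Subgroup (W G)} {k : ℕ} {c : W G → (Fin k → V) → ℝ}
    (hc : c ∈ cochains G Γ k) : ∃ α, Sec G (rr G Γ) α ∧ Ps Γ k α = c := by
  obtain ⟨h1, h2, h3, h4⟩ := hc
  have hwell : ∀ (s : Fin k → V) (a b : W G), (QuotientGroup.leftRel Γ) a b →
      c a⁻¹ s = c b⁻¹ s := by
    intro s a b hab
    rw [QuotientGroup.leftRel_apply] at hab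
    have h5 := h1 (a⁻¹ * b) hab b⁻¹
    rw [mul_inv_cancel_right] at h5
    rw [h5]
  refine ⟨fun s q => Quotient.lift (fun y => c y⁻¹ s) (hwell s) q, ⟨fun s i j hij => ?_,
    fun s hs => ?_, fun s i => ?_⟩, ?_⟩
  · funext q
    obtain ⟨y, rfl⟩ := QuotientGroup.mk_surjective q
    exact h2 y⁻¹ s i j hij
  · obtain ⟨q, hq⟩ := Function.ne_iff.1 hs
    obtain ⟨y, rfl⟩ := QuotientGroup.mk_surjective q
    exact h3 y⁻¹ s hq
  · funext q
    obtain ⟨y, rfl⟩ := QuotientGroup.mk_surjective q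
    change c (gen G (s i) * y)⁻¹ s = - c y⁻¹ s
    rw [← h4 y⁻¹ s i, mul_inv_rev, inv_eq_of_mul_eq_one_left (gen_gen (G := G) (s i))]
  · funext x s
    change c (x⁻¹)⁻¹ s = c x s
    rw [inv_inv]

variable [Fintype V]

lemma cob_Ps {Γ : Subgroup (W G)} {k : ℕ} (α : EE G (rr G Γ) k) :
    coboundary G k (Ps Γ k α) = (-2 : ℝ) • Ps Γ (k + 1) ((com_rr Γ).dd k α) := by
  funext x s
  change (if ∀ i j, i ≠ j → G.Adj (s i) (s j) then _ else _) =
    (-2 : ℝ) * ((com_rr Γ).dd k α : (Fin (k + 1) → V) → (W G ⧸ Γ) → ℝ) s ((x⁻¹ : W G) : W G ⧸ Γ)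
  by_cases hs : CT G s
  · rw [if_pos (show ∀ i j, i ≠ j → G.Adj (s i) (s j) from hs), (com_rr Γ).dd_apply _ hs]
    unfold tc
    rw [Finset.sum_apply, Finset.mul_sum]
    refine Finset.sum_congr rfl fun i _ => ?_
    rw [Pr_apply]
    simp only [Pi.smul_apply, Pi.add_apply, smul_eq_mul]
    change (-1 : ℝ) ^ (i : ℕ) * ((α : (Fin k → V) → (W G ⧸ Γ) → ℝ) (s ∘ i.succAbove)
      (((x * gen G (s i))⁻¹ : W G) : W G ⧸ Γ) - (α : (Fin k → V) → (W G ⧸ Γ) → ℝ) (s ∘ i.succAbove)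
      ((x⁻¹ : W G) : W G ⧸ Γ)) = -2 * ((-1 : ℝ) ^ (i : ℕ) * (1 / 2 *
      ((α : (Fin k → V) → (W G ⧸ Γ) → ℝ) (s ∘ i.succAbove) ((x⁻¹ : W G) : W G ⧸ Γ) + -1 *
      (α : (Fin k → V) → (W G ⧸ Γ) → ℝ) (s ∘ i.succAbove) (gen G (s i) • ((x⁻¹ : W G) : W G ⧸ Γ)))))
    have e : (((x * gen G (s i))⁻¹ : W G) : W G ⧸ Γ) = gen G (s i) • ((x⁻¹ : W G) : W G ⧸ Γ) := by
      rw [mul_inv_rev, inv_eq_of_mul_eq_one_left (gen_gen (G := G) (s i))]
      rfl
    rw [e]
    ring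
  · rw [if_neg (show ¬ ∀ i j, i ≠ j → G.Adj (s i) (s j) from hs)]
    have : ((com_rr Γ).dd k α : (Fin (k + 1) → V) → (W G ⧸ Γ) → ℝ) s = 0 := if_neg hs
    rw [this]
    simp

lemma betti_le_zero {Γ : Subgroup (W G)} (hΓ : Γ.index ≠ 0) :
    betti G Γ 0 ≤ Module.finrank ℝ (LinearMap.ker ((com_rr Γ).dd 0)) := by
  have : Γ.FiniteIndex := ⟨hΓ⟩
  have : Finite (W G ⧸ Γ) := inferInstance
  have h1 : (cochains G Γ 0 ⊓ LinearMap.ker (coboundary G 0) : Submodule ℝ _) ≤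
      (LinearMap.ker ((com_rr Γ).dd 0)).map (Ps Γ 0 ∘ₗ (EE G (rr G Γ) 0).subtype) := by
    rintro c ⟨hc, hc'⟩
    obtain ⟨α, hα, rfl⟩ := exists_Ps hc
    refine ⟨⟨α, hα⟩, ?_, rfl⟩
    have h2 := cob_Ps (⟨α, hα⟩ : EE G (rr G Γ) 0)
    have h3 : coboundary G 0 (Ps Γ 0 α) = 0 := hc'
    simp only at h2
    rw [h3, eq_comm, smul_eq_zero] at h2
    have h4 := h2.resolve_left (by norm_num)
    rw [← map_zero (Ps Γ (0 + 1))] at h4
    exact LinearMap.mem_ker.2 (Subtype.ext (Ps_inj Γ _ h4))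
  exact (Submodule.finrank_mono h1).trans (Submodule.finrank_map_le _ _)

lemma betti_le_pos {Γ : Subgroup (W G)} (hΓ : Γ.index ≠ 0) (k : ℕ) :
    betti G Γ (k + 1) ≤ Module.finrank ℝ (LinearMap.ker ((com_rr Γ).dd (k + 1))) -
      Module.finrank ℝ (LinearMap.range ((com_rr Γ).dd k)) := by
  have : Γ.FiniteIndex := ⟨hΓ⟩
  have : Finite (W G ⧸ Γ) := inferInstance
  have h1 : (cochains G Γ (k + 1) ⊓ LinearMap.ker (coboundary G (k + 1)) : Submodule ℝ _) ≤
      (LinearMap.ker ((com_rr Γ).dd (k + 1))).map (Ps Γ (k + 1) ∘ₗ (EE G (rr G Γ) (k + 1)).subtype) := by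
    rintro c ⟨hc, hc'⟩
    obtain ⟨α, hα, rfl⟩ := exists_Ps hc
    refine ⟨⟨α, hα⟩, ?_, rfl⟩
    have h2 := cob_Ps (⟨α, hα⟩ : EE G (rr G Γ) (k + 1))
    have h3 : coboundary G (k + 1) (Ps Γ (k + 1) α) = 0 := hc'
    simp only at h2
    rw [h3, eq_comm, smul_eq_zero] at h2
    have h4 := h2.resolve_left (by norm_num)
    rw [← map_zero (Ps Γ (k + 1 + 1))] at h4
    exact LinearMap.mem_ker.2 (Subtype.ext (Ps_inj Γ _ h4))
  have h2 := (Submodule.finrank_mono h1).trans (Submodule.finrank_map_le _ _)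
  have hfin : (cochains G Γ k) ≤ (⊤ : Submodule ℝ _).map (Ps Γ k ∘ₗ (EE G (rr G Γ) k).subtype) := by
    intro c hc
    obtain ⟨α, hα, rfl⟩ := exists_Ps hc
    exact ⟨⟨α, hα⟩, trivial, rfl⟩
  have : FiniteDimensional ℝ (cochains G Γ k) := Submodule.finiteDimensional_of_le hfin
  have h3 : (LinearMap.range ((com_rr Γ).dd k)).map (Ps Γ (k + 1) ∘ₗ (EE G (rr G Γ) (k + 1)).subtype) ≤
      (cochains G Γ k).map (coboundary G k) := by
    rintro _ ⟨_, ⟨α, rfl⟩, rfl⟩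
    refine ⟨(-1 / 2 : ℝ) • Ps Γ k α, Submodule.smul_mem _ _ (Ps_mem α.2), ?_⟩
    rw [map_smul, cob_Ps, smul_smul]
    norm_num
  have h4 := Submodule.finrank_mono h3
  have hinj : Function.Injective (Ps Γ (k + 1) ∘ₗ (EE G (rr G Γ) (k + 1)).subtype) :=
    (Ps_inj Γ (k + 1)).comp (Submodule.subtype_injective _)
  rw [← (Submodule.equivMapOfInjective _ hinj (LinearMap.range ((com_rr Γ).dd k))).finrank_eq] at h4
  change Module.finrank ℝ (cochains G Γ (k + 1) ⊓ LinearMap.ker (coboundary G (k + 1)) :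
    Submodule ℝ _) - Module.finrank ℝ ((cochains G Γ k).map (coboundary G k)) ≤ _
  omega

end Pool.Agent.K4H70.L2
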