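import Pool.Agent.K4H70.L2.Fin

/-!
The theorem on the L2-Betti numbers of the Davis manifolds of zero simplicial volume.
-/

set_option autoImplicit false
set_option linter.unusedSectionVars false

open scoped Classical Topology
open Filter

namespace Pool.Agent.K4H70.L2

open Pool.Agent.W907.SG (W)
open Pool.Agent.Q134.SV
open Pool.Agent.K4H70.SV hiding To ext ext_zero ext_cons ext_sub ext_zero_of ext_const_zero ext_comm
  ext_neg ext_inl hat hat_gt hat_not bch vexact Zst zig_step zig_down st st_perm zig_start zig_end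
  exact_pos exact_zero

section

variable {V : Type} {G : SimpleGraph V}

/-- the product of two nonadjacent generators has infinite order -/
lemma pow_ne_one {u v : V} (huv : u ≠ v) (hadj : ¬ G.Adj u v) {k : ℕ} (hk : 1 ≤ k) :
    (gen G u * gen G v) ^ k ≠ 1 := by
  let ρ : V → DihedralGroup 0 := fun w =>
    if w = u then DihedralGroup.sr 0 else if w = v then DihedralGroup.sr 1 else 1
  have h2 : ∀ x, ρ x * ρ x = 1 := by
    intro x
    simp only [ρ]
    split_ifs
    · exact DihedralGroup.sr_mul_self _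
    · exact DihedralGroup.sr_mul_self _
    · exact one_mul 1
  have hc : ∀ x y, G.Adj x y → ρ x * ρ y = ρ y * ρ x := by
    intro x y hxy
    by_cases h1 : x = u ∨ x = v
    · by_cases h3 : y = u ∨ y = v
      · exfalso
        rcases h1 with rfl | rfl <;> rcases h3 with rfl | rfl
        · exact hxy.ne rfl
        · exact hadj hxy
        · exact hadj hxy.symm
        · exact hxy.ne rfl
      · push Not at h3
        have : ρ y = 1 := by simp [ρ, h3.1, h3.2]
        rw [this, mul_one, one_mul]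
    · push Not at h1
      have : ρ x = 1 := by simp [ρ, h1.1, h1.2]
      rw [this, mul_one, one_mul]
  intro h
  have h3 := congrArg (lft G ρ h2 hc) h
  rw [map_pow, map_mul, lft_gen, lft_gen, map_one] at h3
  have e1 : ρ u = DihedralGroup.sr 0 := by simp [ρ]
  have e2 : ρ v = DihedralGroup.sr 1 := by simp [ρ, huv.symm]
  rw [e1, e2, DihedralGroup.sr_mul_sr, sub_zero, DihedralGroup.r_one_pow,
    ← DihedralGroup.r_zero] at h3
  have h4 : ((k : ZMod 0)) = 0 := DihedralGroup.r.inj h3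
  have h5 : (k : ℤ) = 0 := h4
  omega

/-- the number of the orbits is small -/
lemma no_small {Γ : ℕ → Subgroup (W G)} (hΓ : Farber Γ) {u v : V} (huv : u ≠ v)
    (hadj : ¬ G.Adj u v) :
    Sm (fun j => ((Γ j).index : ℝ)) fun j => no (W G ⧸ Γ j) (gen G u) (gen G v) := by
  have hpos : ∀ j, (0 : ℝ) < (Γ j).index := fun j => by
    have := hΓ.1 j
    positivity
  unfold Sm
  rw [Metric.tendsto_atTop]
  intro ε hε
  obtain ⟨m, hm⟩ := exists_nat_gt (2 / ε)
  have hm0 : (0 : ℝ) < m := lt_trans (by positivity) hm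
  have hm1 : 1 ≤ m := by
    have : 0 < m := by exact_mod_cast hm0
    exact this
  have h1 : Tendsto (fun j => ∑ k ∈ Finset.Ico 1 m,
      (Nat.card {x : W G ⧸ Γ j // (gen G u * gen G v) ^ k • x = x} : ℝ) / (Γ j).index) atTop
      (𝓝 0) := by
    rw [← Finset.sum_const_zero (s := Finset.Ico 1 m)]
    refine tendsto_finset_sum _ fun k hk => ?_
    exact hΓ.2 _ (pow_ne_one huv hadj (Finset.mem_Ico.1 hk).1)
  rw [Metric.tendsto_atTop] at h1
  obtain ⟨J, hJ⟩ := h1 (ε / 2) (by positivity)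
  refine ⟨J, fun j hj => ?_⟩
  have h2 := hJ j hj
  rw [Real.dist_eq, sub_zero] at h2 ⊢
  have : (Γ j).FiniteIndex := ⟨hΓ.1 j⟩
  have : Finite (W G ⧸ Γ j) := inferInstance
  have h3 := no_le (Ω := W G ⧸ Γ j) (gen G u) (gen G v) m hm1
  have h4 : Nat.card (W G ⧸ Γ j) = (Γ j).index := rfl
  rw [h4] at h3
  have h5 : (m : ℝ) * (no (W G ⧸ Γ j) (gen G u) (gen G v) : ℝ) ≤ (Γ j).index + m *
      ∑ k ∈ Finset.Ico 1 m,
        (Nat.card {x : W G ⧸ Γ j // (gen G u * gen G v) ^ k • x = x} : ℝ) := by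
    exact_mod_cast h3
  rw [abs_of_nonneg (div_nonneg (Nat.cast_nonneg _) (hpos j).le)]
  rw [← Finset.sum_div] at h2
  have h6 := (abs_lt.1 h2).2
  rw [div_lt_iff₀ (hpos j)] at h6 ⊢
  have h7 : (2 : ℝ) < ε * m := by
    rw [div_lt_iff₀ hε] at hm
    linarith
  have h8 : (m : ℝ) * (no (W G ⧸ Γ j) (gen G u) (gen G v) : ℝ) < m * (ε * (Γ j).index) := by
    nlinarith [hpos j, mul_pos hm0 (hpos j)]
  exact lt_of_mul_lt_mul_left h8 hm0.le

end

variable {V : Type} [Fintype V] {G : SimpleGraph V}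

/-- **Theorem** -/
theorem l2_betti {n : ℕ} (hn : HSphere (n + 1) G) (H : Subgroup (W G)) (hH : H.index ≠ 0)
    (hε : H ≤ (par G).ker) (hz : ZeroSV (n + 1) H) (Γ : ℕ → Subgroup (W G)) (hΓ : Farber Γ)
    (i : ℕ) : Tendsto (fun j => (betti G (Γ j) i : ℝ) / (Γ j).index) atTop (𝓝 0) := by
  obtain ⟨z, hz1, hz0, _⟩ := hn.top ∅ (by simp) (n + 1) (by simp)
  have hcyc : IsCyc (n + 1) G z := ⟨hz1.alt, fun v hv => (hz1.supp v hv).1, hz1.cyc⟩
  have h1 : ∀ a : (Fin (n + 1) → V ⊕ V × V) → ℝ, Alt a → (∀ v, GT G v → cobd a v = 0) →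
      ∑ v, zh z v * a v = 0 := by
    intro a ha hc
    have h2 := sum_zh z a
    simp only [smul_eq_mul] at h2
    rw [h2]
    by_contra h3
    obtain ⟨c, hc, hp⟩ := exists_good_of_labels hcyc ha hc h3
    exact not_zeroSV hcyc hc hp H hH hε hz
  obtain ⟨B, hB, hB', hzB⟩ := dual2 (A := GT G) (fun v i j h => (GT.swap i j).2 h)
    (zh_alt hz1.alt') h1
  have hfin : ∀ j, Finite (W G ⧸ Γ j) := fun j => by
    have : (Γ j).FiniteIndex := ⟨hΓ.1 j⟩
    infer_instance
  have hpos : ∀ j, (0 : ℝ) < (Γ j).index := fun j => by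
    have := hΓ.1 j
    positivity
  have hK : ∀ u v, u ≠ v → ¬ G.Adj u v → Sm (fun j => ((Γ j).index : ℝ)) fun j =>
      Module.finrank ℝ (Fx (rr G (Γ j)) u ⊓ Fx (rr G (Γ j)) v : Submodule ℝ _) := by
    intro u v huv hadj
    exact Sm.mono hpos (no_small hΓ huv hadj) fun j => finrank_fix_le (gen_gen u) (gen_gen v)
  have hC : ∀ u v, u ≠ v → ¬ G.Adj u v → Sm (fun j => ((Γ j).index : ℝ)) fun j =>
      Module.finrank ℝ ((W G ⧸ Γ j) → ℝ) -
      Module.finrank ℝ (Fx (rr G (Γ j)) u ⊔ Fx (rr G (Γ j)) v : Submodule ℝ _) := by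
    intro u v huv hadj
    exact Sm.mono hpos (no_small hΓ huv hadj) fun j => finrank_cofix_le (gen_gen u) (gen_gen v)
  change Sm (fun j => ((Γ j).index : ℝ)) fun j => betti G (Γ j) i
  cases i with
  | zero =>
    refine Sm.mono hpos (betti_zero hpos hn hz1 hz0 hB hB' hzB (fun j => com_rr (Γ j)) hK hC)
      fun j => betti_le_zero (hΓ.1 j)
  | succ i =>
    refine Sm.mono hpos (betti_pos hpos hn hz1 hz0 hB hB' hzB (fun j => com_rr (Γ j)) hK hC i)
      fun j => betti_le_pos (hΓ.1 j) i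

end Pool.Agent.K4H70.L2
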