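import Pool.Agent.K4H70.L2.Rk

/-!
The module of the sequences of linear maps, modulo the sequences of small rank, is an acyclic system.
-/

set_option autoImplicit false
set_option linter.unusedSectionVars false

open scoped Classical Topology
open Filter

namespace Pool.Agent.K4H70.L2

open Pool.Agent.Q134.SV
open Pool.Agent.K4H70.SV hiding To ext ext_zero ext_cons ext_sub ext_zero_of ext_const_zero ext_comm
  ext_neg ext_inl hat hat_gt hat_not bch vexact Zst zig_step zig_down st st_perm zig_start zig_end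
  exact_pos exact_zero

variable {V : Type} [Fintype V] {G : SimpleGraph V} {X N : ℕ → Type}
  [∀ j, AddCommGroup (X j)] [∀ j, Module ℝ (X j)] [∀ j, AddCommGroup (N j)] [∀ j, Module ℝ (N j)]
  [∀ j, FiniteDimensional ℝ (N j)] {d : ℕ → ℝ} (hd : ∀ j, 0 < d j)
  (r : ∀ j, V → N j →ₗ[ℝ] N j)

variable (X N) in
/-- the sequences of small rank -/
def II (hd : ∀ j, 0 < d j) : Submodule ℝ (∀ j, X j →ₗ[ℝ] N j) where
  carrier := {a | Sm d fun j => rk (a j)}
  add_mem' := by
    intro a b ha hb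
    exact (Sm.add ha hb).mono hd fun j => rk_add (a j) (b j)
  zero_mem' := by
    have : (fun j => rk ((0 : ∀ j, X j →ₗ[ℝ] N j) j)) = fun _ => 0 := by
      funext j
      exact rk_zero
    change Sm d fun j => rk ((0 : ∀ j, X j →ₗ[ℝ] N j) j)
    rw [this]
    exact Sm.zero
  smul_mem' := by
    intro c a ha
    exact Sm.mono hd ha fun j => rk_smul c (a j)

lemma mem_II {a : ∀ j, X j →ₗ[ℝ] N j} : a ∈ II X N hd ↔ Sm d fun j => rk (a j) := Iff.rfl

variable (X) in
/-- the operators on the sequences -/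
def Lf (v : V) : (∀ j, X j →ₗ[ℝ] N j) →ₗ[ℝ] (∀ j, X j →ₗ[ℝ] N j) where
  toFun a j := r j v ∘ₗ a j
  map_add' a b := by
    funext j
    exact LinearMap.comp_add _ _ _
  map_smul' c a := by
    funext j
    exact LinearMap.comp_smul _ _ _

@[simp] lemma Lf_apply (v : V) (a : ∀ j, X j →ₗ[ℝ] N j) (j : ℕ) : Lf X r v a j = r j v ∘ₗ a j := rfl

lemma Lf_II (v : V) : II X N hd ≤ (II X N hd).comap (Lf X r v) := by
  intro a ha
  exact Sm.mono hd ha fun j => rk_comp (r j v) (a j)

variable (X) in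
/-- the operators on the quotient -/
def SS (v : V) : ((∀ j, X j →ₗ[ℝ] N j) ⧸ II X N hd) →ₗ[ℝ] ((∀ j, X j →ₗ[ℝ] N j) ⧸ II X N hd) :=
  (II X N hd).mapQ (II X N hd) (Lf X r v) (Lf_II hd r v)

lemma SS_mk (v : V) (a : ∀ j, X j →ₗ[ℝ] N j) :
    SS X hd r v ((II X N hd).mkQ a) = (II X N hd).mkQ (Lf X r v a) := rfl

lemma com_Lf (hr : ∀ j, Com G (r j)) : Com G (Lf X r) := by
  refine ⟨fun v a => ?_, fun u v a huv => ?_⟩
  · funext j
    ext x
    exact (hr j).sq v _
  · funext j
    ext x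
    exact (hr j).comm u v _ huv

theorem acs_SS (hr : ∀ j, Com G (r j))
    (hK : ∀ u v, u ≠ v → ¬ G.Adj u v → Sm d fun j => Module.finrank ℝ (Fx (r j) u ⊓ Fx (r j) v :
      Submodule ℝ (N j)))
    (hC : ∀ u v, u ≠ v → ¬ G.Adj u v → Sm d fun j => Module.finrank ℝ (N j) -
      Module.finrank ℝ (Fx (r j) u ⊔ Fx (r j) v : Submodule ℝ (N j))) :
    Acs G (SS X hd r) := by
  refine ⟨⟨fun v m => ?_, fun u v m huv => ?_⟩, fun u v m huv hadj hu hv => ?_,
    fun u v m huv hadj => ?_⟩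
  · obtain ⟨a, rfl⟩ := (II X N hd).mkQ_surjective m
    rw [SS_mk, SS_mk, (com_Lf r hr).sq]
  · obtain ⟨a, rfl⟩ := (II X N hd).mkQ_surjective m
    rw [SS_mk, SS_mk, SS_mk, SS_mk, (com_Lf r hr).comm u v a huv]
  · obtain ⟨a, rfl⟩ := (II X N hd).mkQ_surjective m
    rw [SS_mk, ← sub_eq_zero, ← map_sub, Submodule.mkQ_apply, Submodule.Quotient.mk_eq_zero,
      mem_II] at hu hv
    rw [Submodule.mkQ_apply, Submodule.Quotient.mk_eq_zero, mem_II]
    refine Sm.mono hd ((hK u v huv hadj).add (hu.add hv)) fun j => ?_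
    exact rk_fix (r j u) (r j v) (a j)
  · obtain ⟨a, rfl⟩ := (II X N hd).mkQ_surjective m
    choose p q hp hq hpq using fun j => exists_dec (Fx (r j) u) (Fx (r j) v)
    refine ⟨(II X N hd).mkQ fun j => p j ∘ₗ a j, (II X N hd).mkQ fun j => q j ∘ₗ a j, ?_, ?_, ?_⟩
    · rw [SS_mk]
      congr 1
      funext j
      ext x
      exact mem_Fx.1 (hp j (a j x))
    · rw [SS_mk]
      congr 1
      funext j
      ext x
      exact mem_Fx.1 (hq j (a j x))
    · rw [← map_add, eq_comm, ← sub_eq_zero, ← map_sub, Submodule.mkQ_apply,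
        Submodule.Quotient.mk_eq_zero, mem_II]
      refine Sm.mono hd (hC u v huv hadj) fun j => ?_
      refine le_trans ?_ (hpq j)
      have h1 : (a - ((fun j => p j ∘ₗ a j) + fun j => q j ∘ₗ a j)) j =
          (LinearMap.id - p j - q j) ∘ₗ a j := by
        ext x
        simp only [Pi.sub_apply, Pi.add_apply, LinearMap.sub_apply, LinearMap.add_apply,
          LinearMap.comp_apply, LinearMap.id_apply]
        abel
      rw [h1]
      unfold rk
      refine Submodule.finrank_mono ?_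
      rintro _ ⟨x, rfl⟩
      exact ⟨a j x, rfl⟩

end Pool.Agent.K4H70.L2
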