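import Pool.Agent.K4H70.L2.Bet

/-!
Functions on a finite set with two involutions.
-/

set_option autoImplicit false
set_option linter.unusedSectionVars false

open scoped Classical Topology
open Filter

namespace Pool.Agent.K4H70.L2

variable {D : Type} [Group D] {Ω : Type} [MulAction D Ω] [Finite Ω]

/-- the number of the orbits of the subgroup generated by two elements -/
noncomputable def no (Ω : Type) [MulAction D Ω] (u v : D) : ℕ :=
  Nat.card (MulAction.orbitRel.Quotient (Subgroup.closure {u, v} : Subgroup D) Ω)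

lemma finrank_le_no {u v : D} (hu : u * u = 1) (hv : v * v = 1) (W : Submodule ℝ (Ω → ℝ))
    (hW : ∀ φ ∈ W, ∀ x, φ x = 0 → φ (u • x) = 0 ∧ φ (v • x) = 0) :
    Module.finrank ℝ W ≤ no Ω u v := by
  set Q := MulAction.orbitRel.Quotient (Subgroup.closure {u, v} : Subgroup D) Ω with hQ
  have : Finite Q := Quotient.finite _
  have := Fintype.ofFinite Q
  let T : W →ₗ[ℝ] (Q → ℝ) := LinearMap.pi fun q => (LinearMap.proj (Quotient.out q)) ∘ₗ W.subtype
  have hT : Function.Injective T := by
    rw [← LinearMap.ker_eq_bot, LinearMap.ker_eq_bot']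
    intro φ hφ
    apply Subtype.ext
    funext x
    have h1 : ∀ g ∈ (Subgroup.closure {u, v} : Subgroup D), ∀ y,
        (φ : Ω → ℝ) y = 0 ↔ (φ : Ω → ℝ) (g • y) = 0 := by
      intro g hg
      induction hg using Subgroup.closure_induction with
      | mem g hg =>
        intro y
        rcases hg with rfl | hg
        · refine ⟨fun h => (hW φ φ.2 y h).1, fun h => ?_⟩
          have := (hW φ φ.2 _ h).1
          rwa [smul_smul, hu, one_smul] at this
        · rw [Set.mem_singleton_iff] at hg
          subst hg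
          refine ⟨fun h => (hW φ φ.2 y h).2, fun h => ?_⟩
          have := (hW φ φ.2 _ h).2
          rwa [smul_smul, hv, one_smul] at this
      | one => intro y; rw [one_smul]
      | mul g h _ _ ihg ihh =>
        intro y
        rw [mul_smul, ihh y, ihg (h • y)]
      | inv g _ ih =>
        intro y
        have := ih (g⁻¹ • y)
        rw [smul_inv_smul] at this
        exact this.symm
    have h2 : (φ : Ω → ℝ) (Quotient.out (Quotient.mk _ x : Q)) = 0 := congrFun hφ _
    have h3 : MulAction.orbitRel (Subgroup.closure {u, v} : Subgroup D) Ω x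
        (Quotient.out (Quotient.mk _ x : Q)) := by
      have h5 : (Quotient.mk _ (Quotient.out (Quotient.mk _ x : Q)) : Q) = Quotient.mk _ x :=
        Quotient.out_eq _
      exact (MulAction.orbitRel (Subgroup.closure {u, v} : Subgroup D) Ω).iseqv.symm
        (Quotient.exact h5)
    rw [MulAction.orbitRel_apply, MulAction.mem_orbit_iff] at h3
    obtain ⟨g, hg⟩ := h3
    have h4 := (h1 g.1 g.2 _).1 h2
    rw [← hg]
    exact h4
  have h1 := LinearMap.finrank_le_finrank_of_injective hT
  rw [Module.finrank_pi] at h1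
  unfold no
  rw [Nat.card_eq_fintype_card]
  exact h1

lemma no_le (u v : D) (m : ℕ) (_hm : 1 ≤ m) :
    m * no Ω u v ≤ Nat.card Ω + m * ∑ k ∈ Finset.Ico 1 m, Nat.card {x : Ω // (u * v) ^ k • x = x} := by
  have := Fintype.ofFinite Ω
  set Q := MulAction.orbitRel.Quotient (Subgroup.closure {u, v} : Subgroup D) Ω with hQ
  have : Finite Q := Quotient.finite _
  have := Fintype.ofFinite Q
  set F : Finset Ω := (Finset.Ico 1 m).biUnion fun k => Finset.univ.filter fun x => (u * v) ^ k • x = x
    with hF
  set Q1 : Finset Q := F.image fun x => (Quotient.mk _ x : Q) with hQ1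
  set Q2 : Finset Q := Finset.univ \ Q1 with hQ2
  have h1 : no Ω u v = Q1.card + Q2.card := by
    unfold no
    have h4 := Finset.card_le_univ Q1
    rw [hQ2, Finset.card_sdiff_of_subset (Finset.subset_univ _), Finset.card_univ,
      Nat.card_eq_fintype_card]
    exact (Nat.add_sub_cancel' h4).symm
  have h2 : Q1.card ≤ ∑ k ∈ Finset.Ico 1 m, Nat.card {x : Ω // (u * v) ^ k • x = x} := by
    refine Finset.card_image_le.trans (Finset.card_biUnion_le.trans ?_)
    refine Finset.sum_le_sum fun k _ => ?_
    rw [Nat.card_eq_fintype_card, Fintype.card_subtype]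
  have h3 : Q2.card * m ≤ Nat.card Ω := by
    rw [Nat.card_eq_fintype_card, ← Finset.card_range m, ← Finset.card_product, ← Finset.card_univ]
    refine Finset.card_le_card_of_injOn (fun p => (u * v) ^ p.2 • Quotient.out p.1)
      (fun _ _ => Finset.mem_univ _) ?_
    rintro ⟨q, i⟩ hp ⟨q', i'⟩ hp' heq
    simp only [Finset.coe_product, Set.mem_prod, Finset.mem_coe, Finset.mem_range] at hp hp' heq
    have hcl : ∀ k : ℕ, (u * v) ^ k ∈ (Subgroup.closure {u, v} : Subgroup D) := fun k =>
      Subgroup.pow_mem _ (Subgroup.mul_mem _ (Subgroup.subset_closure (by simp))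
        (Subgroup.subset_closure (by simp))) _
    have hq : ∀ (q : Q) (k : ℕ), (Quotient.mk _ ((u * v) ^ k • Quotient.out q) : Q) = q := by
      intro q k
      conv_rhs => rw [← Quotient.out_eq q]
      refine Quotient.sound ?_
      change MulAction.orbitRel _ _ _ _
      rw [MulAction.orbitRel_apply, MulAction.mem_orbit_iff]
      exact ⟨⟨_, hcl k⟩, rfl⟩
    have hqq : q = q' := by
      rw [← hq q i, ← hq q' i', heq]
    subst hqq
    have key : ∀ i i' : ℕ, i < i' → i' < m →
        (u * v) ^ i • Quotient.out q ≠ (u * v) ^ i' • Quotient.out q := by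
      intro i i' h h' e
      have h4 : (u * v) ^ (i' - i) • Quotient.out q = Quotient.out q := by
        have h5 : (u * v) ^ i • ((u * v) ^ (i' - i) • Quotient.out q) =
            (u * v) ^ i • Quotient.out q := by
          rw [smul_smul, ← pow_add, Nat.add_sub_cancel' h.le, ← e]
        exact smul_left_cancel _ h5
      have h6 := hp.1
      rw [hQ2, Finset.mem_sdiff] at h6
      apply h6.2
      rw [hQ1, Finset.mem_image]
      refine ⟨Quotient.out q, ?_, Quotient.out_eq q⟩
      rw [hF, Finset.mem_biUnion]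
      exact ⟨i' - i, Finset.mem_Ico.2 ⟨by omega, by omega⟩, Finset.mem_filter.2
        ⟨Finset.mem_univ _, h4⟩⟩
    rcases lt_trichotomy i i' with h | h | h
    · exact absurd heq (key i i' h hp'.2)
    · rw [h]
    · exact absurd heq.symm (key i' i h hp.2)
  calc m * no Ω u v = m * Q1.card + Q2.card * m := by rw [h1]; ring
    _ ≤ _ := by
      have := Nat.mul_le_mul_left m h2
      omega

/-- the operators on the functions -/
def fo (Ω : Type) [MulAction D Ω] (u : D) : (Ω → ℝ) →ₗ[ℝ] (Ω → ℝ) :=
  LinearMap.funLeft ℝ ℝ fun x => u • x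

lemma fo_apply (u : D) (φ : Ω → ℝ) (x : Ω) : fo Ω u φ x = φ (u • x) := rfl

lemma finrank_fix_le {u v : D} (hu : u * u = 1) (hv : v * v = 1) :
    Module.finrank ℝ (LinearMap.ker (fo Ω u - LinearMap.id) ⊓ LinearMap.ker (fo Ω v - LinearMap.id) :
      Submodule ℝ (Ω → ℝ)) ≤ no Ω u v := by
  refine finrank_le_no hu hv _ fun φ hφ x hx => ?_
  obtain ⟨h1, h2⟩ := hφ
  have h3 := congrFun (LinearMap.mem_ker.1 h1) x
  have h4 := congrFun (LinearMap.mem_ker.1 h2) x
  simp only [LinearMap.sub_apply, LinearMap.id_apply, Pi.sub_apply, fo_apply, Pi.zero_apply, hx,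
    sub_zero] at h3 h4
  exact ⟨h3, h4⟩

lemma finrank_cofix_le {u v : D} (hu : u * u = 1) (hv : v * v = 1) :
    Module.finrank ℝ (Ω → ℝ) - Module.finrank ℝ (LinearMap.ker (fo Ω u - LinearMap.id) ⊔
      LinearMap.ker (fo Ω v - LinearMap.id) : Submodule ℝ (Ω → ℝ)) ≤ no Ω u v := by
  have := Fintype.ofFinite Ω
  set A := LinearMap.ker (fo Ω u - LinearMap.id) ⊔ LinearMap.ker (fo Ω v - LinearMap.id) with hA
  have h1 := Subspace.finrank_add_finrank_dualAnnihilator_eq A
  let ψ : Module.Dual ℝ (Ω → ℝ) →ₗ[ℝ] (Ω → ℝ) := LinearMap.pi fun x =>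
    Module.Dual.eval ℝ (Ω → ℝ) (Pi.single x 1)
  have hψ : Function.Injective ψ := by
    rw [← LinearMap.ker_eq_bot, LinearMap.ker_eq_bot']
    intro l hl
    refine LinearMap.pi_ext' fun x => ?_
    ext
    exact congrFun hl x
  have h2 : Module.finrank ℝ A.dualAnnihilator =
      Module.finrank ℝ (A.dualAnnihilator.map ψ) :=
    (Submodule.equivMapOfInjective ψ hψ _).finrank_eq
  have h3 : Module.finrank ℝ (A.dualAnnihilator.map ψ) ≤ no Ω u v := by
    refine finrank_le_no hu hv _ ?_
    rintro _ ⟨l, hl, rfl⟩ x hx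
    have hl' : ∀ a ∈ A, l a = 0 := fun a ha => (Submodule.mem_dualAnnihilator l).1 hl a ha
    have key : ∀ w : D, w * w = 1 → LinearMap.ker (fo Ω w - LinearMap.id) ≤ A →
        ψ l (w • x) = 0 := by
      intro w hw hwA
      have h4 : Pi.single x 1 + Pi.single (w • x) 1 ∈ LinearMap.ker (fo Ω w - LinearMap.id) := by
        rw [LinearMap.mem_ker]
        funext y
        simp only [LinearMap.sub_apply, LinearMap.id_apply, Pi.sub_apply, fo_apply, Pi.add_apply,
          Pi.zero_apply, Pi.single_apply]
        have e1 : w • y = x ↔ y = w • x := by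
          constructor
          · rintro rfl; rw [smul_smul, hw, one_smul]
          · rintro rfl; rw [smul_smul, hw, one_smul]
        have e2 : w • y = w • x ↔ y = x := ⟨fun h => smul_left_cancel _ h, fun h => by rw [h]⟩
        simp only [e1, e2]
        ring
      have h5 := hl' _ (hwA h4)
      rw [map_add] at h5
      have h6 : ψ l x = l (Pi.single x 1) := rfl
      have h7 : ψ l (w • x) = l (Pi.single (w • x) 1) := rfl
      rw [h7]
      rw [h6] at hx
      rw [hx, zero_add] at h5
      exact h5
    exact ⟨key u hu le_sup_left, key v hv le_sup_right⟩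
  omega

end Pool.Agent.K4H70.L2
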