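import Pool.Agent.K4H70.L2.Ex

/-!
The module of the sequences of linear maps, modulo the sequences of small rank.
-/

set_option autoImplicit false
set_option linter.unusedSectionVars false

open scoped Classical Topology
open Filter

namespace Pool.Agent.K4H70.L2

open Pool.Agent.Q134.SV
open Pool.Agent.K4H70.SV hiding To ext ext_zero ext_cons ext_sub ext_zero_of ext_const_zero ext_comm
  ext_neg ext_inl hat hat_gt hat_not bch vexact Zst zig_step zig_down st st_perm zig_start zig_end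
  exact_pos exact_zero

/-- small sequences -/
def Sm (d : ℕ → ℝ) (r : ℕ → ℕ) : Prop := Tendsto (fun j => (r j : ℝ) / d j) atTop (𝓝 0)

lemma Sm.mono {d : ℕ → ℝ} (hd : ∀ j, 0 < d j) {r r' : ℕ → ℕ} (h : Sm d r) (h' : ∀ j, r' j ≤ r j) :
    Sm d r' := by
  refine squeeze_zero (fun j => div_nonneg (Nat.cast_nonneg _) (hd j).le) (fun j => ?_) h
  have h1 : (r' j : ℝ) ≤ r j := by exact_mod_cast h' j
  exact div_le_div_of_nonneg_right h1 (hd j).le

lemma Sm.add {d : ℕ → ℝ} {r r' : ℕ → ℕ} (h : Sm d r) (h' : Sm d r') :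
    Sm d fun j => r j + r' j := by
  have := Tendsto.add h h'
  rw [add_zero] at this
  refine this.congr fun j => ?_
  push_cast
  ring

lemma Sm.zero {d : ℕ → ℝ} : Sm d fun _ => 0 := by
  unfold Sm
  simp

lemma Sm.sum {d : ℕ → ℝ} {ι : Type} (s : Finset ι) {r : ι → ℕ → ℕ} (h : ∀ i ∈ s, Sm d (r i)) :
    Sm d fun j => ∑ i ∈ s, r i j := by
  induction s using Finset.induction_on with
  | empty => simpa using Sm.zero
  | insert a s ha ih =>
    simp only [Finset.sum_insert ha]
    exact (h a (Finset.mem_insert_self _ _)).add (ih fun i hi => h i (Finset.mem_insert_of_mem hi))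

/-! ### Linear algebra -/

section

variable {X Y Z : Type} [AddCommGroup X] [Module ℝ X] [AddCommGroup Y] [Module ℝ Y]
  [AddCommGroup Z] [Module ℝ Z]

/-- the rank -/
noncomputable def rk (f : X →ₗ[ℝ] Y) : ℕ := Module.finrank ℝ (LinearMap.range f)

variable [FiniteDimensional ℝ Y] [FiniteDimensional ℝ Z]

lemma rk_add (f g : X →ₗ[ℝ] Y) : rk (f + g) ≤ rk f + rk g := by
  have h1 : LinearMap.range (f + g) ≤ LinearMap.range f ⊔ LinearMap.range g := by
    rintro _ ⟨x, rfl⟩
    exact Submodule.add_mem_sup ⟨x, rfl⟩ ⟨x, rfl⟩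
  exact (Submodule.finrank_mono h1).trans (Submodule.finrank_add_le_finrank_add_finrank _ _)

lemma rk_smul (c : ℝ) (f : X →ₗ[ℝ] Y) : rk (c • f) ≤ rk f := by
  refine Submodule.finrank_mono ?_
  rintro _ ⟨x, rfl⟩
  exact ⟨c • x, by simp⟩

lemma rk_zero : rk (0 : X →ₗ[ℝ] Y) = 0 := by
  unfold rk
  rw [LinearMap.range_zero, finrank_bot]

lemma rk_comp (g : Y →ₗ[ℝ] Z) (f : X →ₗ[ℝ] Y) : rk (g ∘ₗ f) ≤ rk f := by
  unfold rk
  rw [LinearMap.range_comp]
  exact Submodule.finrank_map_le g _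

omit [FiniteDimensional ℝ Z] in
lemma fr_map (F : Submodule ℝ Y) (h : Y →ₗ[ℝ] Z) :
    Module.finrank ℝ F = Module.finrank ℝ (F.map h) + Module.finrank ℝ (F ⊓ LinearMap.ker h :
      Submodule ℝ Y) := by
  have h1 := LinearMap.finrank_range_add_finrank_ker (h.domRestrict F)
  rw [LinearMap.range_domRestrict] at h1
  have h2 : Module.finrank ℝ (LinearMap.ker (h.domRestrict F)) =
      Module.finrank ℝ (F ⊓ LinearMap.ker h : Submodule ℝ Y) := by
    rw [← Submodule.finrank_map_subtype_eq F (LinearMap.ker (h.domRestrict F))]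
    have : Submodule.map F.subtype (LinearMap.ker (h.domRestrict F)) = F ⊓ LinearMap.ker h := by
      ext x
      simp only [Submodule.mem_map, LinearMap.mem_ker, Submodule.mem_inf]
      constructor
      · rintro ⟨y, hy, rfl⟩
        exact ⟨y.2, hy⟩
      · rintro ⟨hx, hx'⟩
        exact ⟨⟨x, hx⟩, hx', rfl⟩
    rw [this]
  rw [← h1, h2]

/-- the rank of a map which is almost fixed by two maps -/
lemma rk_fix (p q : Y →ₗ[ℝ] Y) (f : X →ₗ[ℝ] Y) :
    rk f ≤ Module.finrank ℝ (LinearMap.ker (p - LinearMap.id) ⊓ LinearMap.ker (q - LinearMap.id) :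
      Submodule ℝ Y) + (rk (p ∘ₗ f - f) + rk (q ∘ₗ f - f)) := by
  have h1 := fr_map (LinearMap.range f) (p - LinearMap.id)
  have h2 := fr_map (LinearMap.range f ⊓ LinearMap.ker (p - LinearMap.id)) (q - LinearMap.id)
  have h3 : (LinearMap.range f).map (p - LinearMap.id) = LinearMap.range (p ∘ₗ f - f) := by
    rw [← LinearMap.range_comp, LinearMap.sub_comp, LinearMap.id_comp]
  have h4 : (LinearMap.range f ⊓ LinearMap.ker (p - LinearMap.id)).map (q - LinearMap.id) ≤
      LinearMap.range (q ∘ₗ f - f) := by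
    rw [show q ∘ₗ f - f = (q - LinearMap.id) ∘ₗ f by rw [LinearMap.sub_comp, LinearMap.id_comp],
      LinearMap.range_comp]
    exact Submodule.map_mono inf_le_left
  have h5 := Submodule.finrank_mono h4
  have h6 : Module.finrank ℝ (LinearMap.range f ⊓ LinearMap.ker (p - LinearMap.id) ⊓
      LinearMap.ker (q - LinearMap.id) : Submodule ℝ Y) ≤
      Module.finrank ℝ (LinearMap.ker (p - LinearMap.id) ⊓ LinearMap.ker (q - LinearMap.id) :
      Submodule ℝ Y) := by
    refine Submodule.finrank_mono ?_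
    rw [inf_assoc]
    exact inf_le_right
  unfold rk
  rw [h3] at h1
  omega

/-- an almost decomposition -/
lemma exists_dec (A B : Submodule ℝ Y) : ∃ a b : Y →ₗ[ℝ] Y, (∀ y, a y ∈ A) ∧ (∀ y, b y ∈ B) ∧
    rk (LinearMap.id - a - b) ≤ Module.finrank ℝ Y - Module.finrank ℝ (A ⊔ B : Submodule ℝ Y) := by
  set f : (A × B) →ₗ[ℝ] Y := A.subtype.coprod B.subtype with hf
  have hrange : LinearMap.range f = A ⊔ B := by
    rw [hf, LinearMap.range_coprod, Submodule.range_subtype, Submodule.range_subtype]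
  obtain ⟨s, hs⟩ := f.rangeRestrict.exists_rightInverse_of_surjective (LinearMap.range_rangeRestrict f)
  obtain ⟨p, hp⟩ := (LinearMap.range f).subtype.exists_leftInverse_of_injective
    (Submodule.ker_subtype _)
  refine ⟨A.subtype ∘ₗ LinearMap.fst ℝ A B ∘ₗ s ∘ₗ p, B.subtype ∘ₗ LinearMap.snd ℝ A B ∘ₗ s ∘ₗ p,
    fun y => Submodule.coe_mem _, fun y => Submodule.coe_mem _, ?_⟩
  set g := LinearMap.id - A.subtype ∘ₗ LinearMap.fst ℝ A B ∘ₗ s ∘ₗ p -
    B.subtype ∘ₗ LinearMap.snd ℝ A B ∘ₗ s ∘ₗ p with hg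
  have h1 := LinearMap.finrank_range_add_finrank_ker g
  have h2 : A ⊔ B ≤ LinearMap.ker g := by
    intro y hy
    rw [← hrange] at hy
    rw [LinearMap.mem_ker, hg]
    have e1 : p y = ⟨y, hy⟩ := LinearMap.congr_fun hp ⟨y, hy⟩
    have e2 := LinearMap.congr_fun hs ⟨y, hy⟩
    have e3 : A.subtype (s ⟨y, hy⟩).1 + B.subtype (s ⟨y, hy⟩).2 = y := congrArg Subtype.val e2
    simp only [LinearMap.sub_apply, LinearMap.id_apply, LinearMap.comp_apply, e1]
    rw [sub_sub, sub_eq_zero]
    exact e3.symm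
  have h3 := Submodule.finrank_mono h2
  unfold rk
  omega

omit [FiniteDimensional ℝ Y] in
/-- the rank of a map to a product -/
lemma rk_pi {ι : Type} [Fintype ι] (e : X →ₗ[ℝ] (ι → Z)) :
    rk e ≤ ∑ i, rk (LinearMap.proj i ∘ₗ e) := by
  set W := fun i => LinearMap.range ((LinearMap.proj i : (ι → Z) →ₗ[ℝ] Z) ∘ₗ e) with hW
  let φ : LinearMap.range e →ₗ[ℝ] (∀ i, W i) := LinearMap.pi fun i =>
    ((LinearMap.proj i : (ι → Z) →ₗ[ℝ] Z) ∘ₗ (LinearMap.range e).subtype).codRestrict (W i) (by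
      rintro ⟨_, x, rfl⟩
      exact ⟨x, rfl⟩)
  have hφ : Function.Injective φ := by
    intro x y hxy
    apply Subtype.ext
    funext i
    exact congrArg Subtype.val (congrFun hxy i)
  have h1 := LinearMap.finrank_le_finrank_of_injective hφ
  rw [Module.finrank_pi_fintype] at h1
  exact h1

end

end Pool.Agent.K4H70.L2
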