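import Pool.Agent.K4H70.SV.Clf

/-!
Systems of involutions which commute for adjacent vertices and are acyclic for the infinite dihedral
groups of the pairs of nonadjacent vertices.
-/

set_option autoImplicit false
set_option linter.unusedSectionVars false

open scoped Classical

namespace Pool.Agent.K4H70.L2

open Pool.Agent.K4H70.SV (Pr Pr_apply Pr_comm_of Pr_of Pr_of_neg Pr_add PL PL_cons PL_linear
  PL_comm_of PF PF_apply PF_empty Cq PF_comm_of PF_of)

variable {V : Type} {M : Type} [AddCommGroup M] [Module ℝ M]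

/-- a system of involutions -/
structure Com (G : SimpleGraph V) (S : V → M →ₗ[ℝ] M) : Prop where
  sq : ∀ v m, S v (S v m) = m
  comm : ∀ u v m, G.Adj u v → S u (S v m) = S v (S u m)

/-- an acyclic system -/
structure Acs (G : SimpleGraph V) (S : V → M →ₗ[ℝ] M) : Prop extends Com G S where
  inj : ∀ u v m, u ≠ v → ¬ G.Adj u v → S u m = m → S v m = m → m = 0
  sur : ∀ u v m, u ≠ v → ¬ G.Adj u v → ∃ a b, S u a = a ∧ S v b = b ∧ a + b = m

variable {G : SimpleGraph V} {S : V → M →ₗ[ℝ] M}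

lemma Com.Pr_comm (h : Com G S) {u v : V} (huv : G.Adj u v) (r r' : ℝ) (m : M) :
    Pr S r u (Pr S r' v m) = Pr S r' v (Pr S r u m) := by
  refine Pr_comm_of (fun m => ?_) m
  refine (Pr_comm_of (fun m => ?_) m).symm
  exact h.comm v u m huv.symm

lemma Com.S_Pr_comm (h : Com G S) {u v : V} (huv : G.Adj u v) (r : ℝ) (m : M) :
    S u (Pr S r v m) = Pr S r v (S u m) :=
  (Pr_comm_of (fun m => h.comm v u m huv.symm) m).symm

lemma Com.S_Pr (h : Com G S) {r : ℝ} (hr : r * r = 1) (v : V) (m : M) :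
    S v (Pr S r v m) = r • Pr S r v m := by
  rw [Pr_apply, map_smul, map_add, map_smul, h.sq, smul_comm r, smul_add r, smul_smul r r, hr,
    one_smul, add_comm]

lemma Com.Pr_orth (h : Com G S) {r : ℝ} (hr : r * r = 1) (v : V) (m : M) :
    Pr S r v (Pr S (-r) v m) = 0 :=
  Pr_of_neg hr (h.S_Pr (by rw [neg_mul_neg, hr]) v m)

lemma Com.PL_perm (h : Com G S) (r : ℝ) {l l' : List V} (hl : l.Perm l')
    (hp : l.Pairwise G.Adj) (m : M) : PL S r l m = PL S r l' m := by
  induction hl with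
  | nil => rfl
  | cons x _ ih =>
    rw [PL_cons, PL_cons, ih (List.pairwise_cons.1 hp).2]
  | swap x y l =>
    simp only [PL_cons]
    rw [List.pairwise_cons] at hp
    exact h.Pr_comm (hp.1 x List.mem_cons_self) _ _ _
  | trans h1 _ ih1 ih2 =>
    rw [ih1 hp, ih2 ((h1.pairwise_iff fun h => h.symm).1 hp)]

lemma Com.PF_insert (h : Com G S) (r : ℝ) {v : V} {T : Finset V} (hv : v ∉ T)
    (hT : Cq G (insert v T)) (m : M) : PF S r (insert v T) m = Pr S r v (PF S r T m) := by
  rw [PF_apply, PF_apply, ← PL_cons]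
  exact h.PL_perm r (Finset.toList_insert hv) (hT.pairwise (List.Perm.refl _)) m

lemma Com.S_PF (h : Com G S) {r : ℝ} (hr : r * r = 1) {T : Finset V} (hT : Cq G T) {v : V}
    (hv : v ∈ T) (m : M) : S v (PF S r T m) = r • PF S r T m := by
  have h1 := h.PF_insert r (Finset.notMem_erase v T) (by rwa [Finset.insert_erase hv]) m
  rw [Finset.insert_erase hv] at h1
  rw [h1, h.S_Pr hr]

/-- a projection kills -/
lemma Com.PF_zero (h : Com G S) {r : ℝ} (hr : r * r = 1) {T : Finset V} (hT : Cq G T) {v : V}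
    (hv : v ∈ T) {m : M} (hm : S v m = (-r) • m) : PF S r T m = 0 := by
  have h1 : ∀ w ∈ T, ∀ m, S w (S v m) = S v (S w m) := by
    intro w hw m
    by_cases hwv : w = v
    · rw [hwv]
    · exact h.comm w v m (hT w hw v hv hwv)
  have h2 := PF_comm_of (r := r) T h1 m
  rw [hm, map_smul, h.S_PF hr hT hv] at h2
  have h3 : (2 * r) • PF S r T m = 0 := by
    rw [two_mul, add_smul]
    nth_rewrite 1 [← h2]
    rw [neg_smul]
    exact neg_add_cancel _
  have hr0 : r ≠ 0 := by
    rintro rfl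
    norm_num at hr
  exact (smul_eq_zero.1 h3).resolve_left (mul_ne_zero two_ne_zero hr0)

lemma Com.S_PL (h : Com G S) {r : ℝ} (hr : r * r = 1) {l : List V} (hl : l.Pairwise G.Adj) {v : V}
    (hv : v ∈ l) (m : M) : S v (PL S r l m) = r • PL S r l m := by
  induction l with
  | nil => exact absurd hv List.not_mem_nil
  | cons w l ih =>
    rw [List.pairwise_cons] at hl
    rw [PL_cons]
    rcases List.mem_cons.1 hv with rfl | hv
    · exact h.S_Pr hr _ _
    · rw [h.S_Pr_comm (hl.1 v hv).symm, ih hl.2 hv, map_smul]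

/-! ### The projections of a nonadjacent pair -/

/-- the fixed vectors -/
def Fx (S : V → M →ₗ[ℝ] M) (v : V) : Submodule ℝ M := LinearMap.ker (S v - LinearMap.id)

lemma mem_Fx {v : V} {m : M} : m ∈ Fx S v ↔ S v m = m := by
  unfold Fx
  rw [LinearMap.mem_ker, LinearMap.sub_apply, LinearMap.id_apply, sub_eq_zero]

lemma Acs.compl (h : Acs G S) {f b : V} (hne : f ≠ b) (hadj : ¬ G.Adj f b) :
    IsCompl (Fx S b) (Fx S f) := by
  constructor
  · rw [Submodule.disjoint_def]
    intro m h1 h2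
    exact h.inj f b m hne hadj (mem_Fx.1 h2) (mem_Fx.1 h1)
  · rw [codisjoint_iff, Submodule.eq_top_iff']
    intro m
    obtain ⟨x, y, hx, hy, hxy⟩ := h.sur f b m hne hadj
    rw [← hxy, add_comm]
    exact Submodule.add_mem_sup (mem_Fx.2 hy) (mem_Fx.2 hx)

/-- the projection to the vectors fixed by `b` along those fixed by `f` -/
noncomputable def Qp (S : V → M →ₗ[ℝ] M) (f b : V) : M →ₗ[ℝ] M :=
  if h : IsCompl (Fx S b) (Fx S f) then (Fx S b).subtype ∘ₗ Submodule.projectionOnto _ _ h else 0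

lemma Qp_spec {f b : V} (h : IsCompl (Fx S b) (Fx S f)) {x y : M} (hx : S b x = x)
    (hy : S f y = y) : Qp S f b (x + y) = x := by
  unfold Qp
  rw [dif_pos h, LinearMap.comp_apply, map_add]
  have h1 := Submodule.projectionOnto_apply_left h ⟨x, mem_Fx.2 hx⟩
  have h2 := Submodule.projectionOnto_apply_right h ⟨y, mem_Fx.2 hy⟩
  simp only at h1 h2
  rw [h1, h2, add_zero]
  rfl

lemma Acs.exists_split (h : Acs G S) {f b : V} (hne : f ≠ b) (hadj : ¬ G.Adj f b) (m : M) :
    ∃ x y, S b x = x ∧ S f y = y ∧ m = x + y ∧ Qp S f b m = x ∧ Qp S b f m = y := by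
  obtain ⟨y, x, hy, hx, hxy⟩ := h.sur f b m hne hadj
  refine ⟨x, y, hx, hy, by rw [← hxy, add_comm], ?_, ?_⟩
  · rw [← hxy, add_comm]
    exact Qp_spec (h.compl hne hadj) hx hy
  · rw [← hxy]
    exact Qp_spec (h.compl hne hadj).symm hy hx

lemma Qp_comm_of {f b : V} {A : M →ₗ[ℝ] M} (hf : ∀ m, S f (A m) = A (S f m))
    (hb : ∀ m, S b (A m) = A (S b m)) (m : M) : A (Qp S f b m) = Qp S f b (A m) := by
  by_cases h : IsCompl (Fx S b) (Fx S f)
  · obtain ⟨x, hx, y, hy, hxy⟩ := Submodule.mem_sup.1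
      (show m ∈ Fx S b ⊔ Fx S f by rw [h.sup_eq_top]; trivial)
    rw [mem_Fx] at hx hy
    rw [← hxy, Qp_spec h hx hy, map_add, Qp_spec h]
    · rw [hb, hx]
    · rw [hf, hy]
  · have : Qp S f b = 0 := dif_neg h
    rw [this]
    simp

lemma Acs.ident (h : Acs G S) {f b : V} (hne : f ≠ b) (hadj : ¬ G.Adj f b) (m : M) :
    Qp S f b (Pr S (-1) f m) + Qp S b f (Pr S (-1) b m) = m := by
  obtain ⟨x, y, hx, hy, hxy, h1, h2⟩ := h.exists_split hne hadj m
  have h3 : Pr S (-1) f m = x + (Pr S (-1) f m - x) := by abel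
  have h4 : Pr S (-1) b m = y + (Pr S (-1) b m - y) := by abel
  rw [h3, h4, Qp_spec (h.compl hne hadj) hx, Qp_spec (h.compl hne hadj).symm hy, hxy]
  · simp only [hxy, Pr_apply, map_sub, map_smul, map_add, h.sq, hx]
    module
  · simp only [hxy, Pr_apply, map_sub, map_smul, map_add, h.sq, hy]
    module

lemma Acs.split (h : Acs G S) {f b : V} (hne : f ≠ b) (hadj : ¬ G.Adj f b) {m : M}
    (hm : S f m = - m) : Pr S (-1) f (Qp S f b m) = m := by
  obtain ⟨x, y, hx, hy, hxy, h1, -⟩ := h.exists_split hne hadj m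
  rw [h1]
  have h2 : x = m - y := by rw [hxy]; abel
  rw [h2, Pr_apply, map_sub, hm, hy]
  module

lemma Acs.orth (h : Acs G S) {f b : V} (hne : f ≠ b) (hadj : ¬ G.Adj f b) (m : M) :
    Pr S (-1) b (Qp S f b m) = 0 := by
  obtain ⟨x, y, hx, hy, hxy, h1, -⟩ := h.exists_split hne hadj m
  rw [h1, Pr_apply, hx]
  module

end Pool.Agent.K4H70.L2
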